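import Pool.Agent.J6H50.RF.M14
import Pool.Agent.J6H61.RF.M23
import Pool.Agent.H660R2.NX.Univ

/-!
# Closure of the class of sets with p-optimal proof systems under `∀`

If a `coNP`-hard set has a p-optimal proof system, then the class of the sets with p-optimal proof
systems is closed under polynomially bounded universal quantification.
-/

set_option autoImplicit false

namespace Pool.Agent.J6H50.RF.PP

open Pool.Agent.J6H50.RF Pool.Agent.NPC
open Pool.Agent.H660R2.NX (U poly_U U_complete)

theorem poly_bits {α : Type} [TEnc α] {β : Type} [TEnc β] {f : β → α} (hf : Poly f) :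
    Poly (fun b => bits (f b)) :=
  J6H61.RF23.poly_bits.comp hf

/-- pairs of bit strings -/
theorem poly_pairBits {β : Type} [TEnc β] {f g : β → List Bool} (hf : Poly f) (hg : Poly g) :
    Poly (fun b => pairBits (f b) (g b)) := by
  unfold pairBits
  fun_prop

/-- the data -/
abbrev D : Type := List Bool × (T × List Unit) × List Bool × List Unit

theorem fst_le {β : Type} [TEnc β] (a : List Bool × β) : a.1.length ≤ sz a := by
  obtain ⟨x, y⟩ := a
  have := length_lt_sz x
  rw [sz_pair]
  change x.length ≤ _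
  omega

theorem poly_le {β : Type} [TEnc β] (p : Polynomial ℕ) {f g : β → List Bool} (hf : Poly f)
    (hg : Poly g) : Poly (fun b => decide ((f b).length ≤ p.eval (g b).length)) := by
  have h1 : Poly (fun b => p.eval (g b).length) := ((UPoly.length hg).eval p).toPoly
  exact NPC.Poly.decide_le (NPC.Poly.length hf) h1

/-- the test of the `coNP` part -/
def tB (h2 fA : List Bool → List Bool) (a : D) (y : List Bool) : Bool :=
  (U a.2.1 (pairBits a.2.2.1 y) a.2.2.2.length).elim false
    (fun r => decide (h2 r = fA (pairBits a.1 y)))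

/-- the `coNP` part -/
def PB (h2 fA : List Bool → List Bool) (p : Polynomial ℕ) (a : D) : Prop :=
  ∀ y : List Bool, y.length ≤ p.eval a.1.length → tB h2 fA a y = true

theorem poly_tB {h2 fA : List Bool → List Bool} (hh : Poly h2) (hf : Poly fA) :
    Poly (fun c : D × List Bool => tB h2 fA c.1 c.2) := by
  unfold tB
  refine NPC.Poly.optElim (o := fun c : D × List Bool =>
      U c.1.2.1 (pairBits c.1.2.2.1 c.2) c.1.2.2.2.length) (g := fun _ => false)
    (h := fun c r => decide (h2 r = fA (pairBits c.1.1 c.2))) ?_ (NPC.Poly.const _) ?_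
  · exact poly_U.comp (f := fun c : D × List Bool =>
      (c.1.2.1, pairBits c.1.2.2.1 c.2, c.1.2.2.2)) (NPC.Poly.pair (by fun_prop) (NPC.Poly.pair
      (poly_pairBits (by fun_prop) (by fun_prop)) (by fun_prop)))
  · exact NPC.Poly.decide_eq (hh.comp (NPC.Poly.snd NPC.Poly.id))
      (hf.comp (poly_pairBits (by fun_prop) (by fun_prop)))

theorem inCoNPP_PB {h2 fA : List Bool → List Bool} (hh : Poly h2) (hf : Poly fA)
    (p : Polynomial ℕ) : InCoNPP (PB h2 fA p) := by
  refine inCoNPP_of (β := List Bool) (R := fun c => decide (c.2.length ≤ p.eval c.1.1.length) &&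
    !(tB h2 fA c.1 c.2)) ?_ (4 * p + 1) ?_
  · exact NPC.Poly.and (poly_le p (NPC.Poly.snd NPC.Poly.id)
      (NPC.Poly.fst (NPC.Poly.fst NPC.Poly.id))) (NPC.Poly.not (poly_tB hh hf))
  · intro a
    constructor
    · intro h
      unfold PB at h
      push Not at h
      obtain ⟨z, hz, hVz⟩ := h
      refine ⟨z, ?_, by simp [hz, hVz]⟩
      have h1 := sz_listBool_le z
      have h2 : p.eval a.1.length ≤ p.eval (sz a) := eval_mono p (fst_le a)
      simp only [Polynomial.eval_add, Polynomial.eval_mul, Polynomial.eval_ofNat,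
        Polynomial.eval_one]
      omega
    · rintro ⟨z, _, hz⟩ h
      simp only [Bool.and_eq_true, decide_eq_true_eq, Bool.not_eq_true'] at hz
      have := h z hz.1
      rw [hz.2] at this
      exact Bool.false_ne_true this

/-- the proof system -/
def sys (x0 : List Bool) (h1 fB : List Bool → List Bool) (v : List Bool) : List Bool :=
  (unbits (D × List Bool) v).elim x0
    (fun c => if h1 c.2 = fB (bits c.1) then c.1.1 else x0)

theorem poly_sys (x0 : List Bool) {h1 fB : List Bool → List Bool} (hh : Poly h1) (hf : Poly fB) :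
    Poly (sys x0 h1 fB) := by
  unfold sys
  refine NPC.Poly.optElim (o := fun v : List Bool => unbits (D × List Bool) v)
    (g := fun _ => x0) (h := fun _ c => if h1 c.2 = fB (bits c.1) then c.1.1 else x0)
    poly_unbits (NPC.Poly.const _) ?_
  have h3 : Poly (fun c : List Bool × D × List Bool => h1 c.2.2) := hh.comp (by fun_prop)
  have h4 : Poly (fun c : List Bool × D × List Bool => fB (bits c.2.1)) :=
    hf.comp (poly_bits (by fun_prop))
  exact NPC.Poly.ite (NPC.Poly.decide_eq h3 h4) (by fun_prop) (NPC.Poly.const _)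

/-- merging a function into a proof system -/
def mrg (h F : List Bool → List Bool) (u : List Bool) : List Bool :=
  match u with
  | [] => h []
  | b :: r => bif b then F r else h r

theorem poly_mrg {h F : List Bool → List Bool} (hh : Poly h) (hF : Poly F) : Poly (mrg h F) := by
  refine (NPC.Poly.listCases (l := fun x : List Bool => x) (g := fun _ => h [])
    (h := fun _ b w => bif b then F w else h w) NPC.Poly.id (NPC.Poly.const _) ?_).congr ?_
  · exact NPC.Poly.cond (NPC.Poly.fst (NPC.Poly.snd NPC.Poly.id))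
      (hF.comp (NPC.Poly.snd (NPC.Poly.snd NPC.Poly.id)))
      (hh.comp (NPC.Poly.snd (NPC.Poly.snd NPC.Poly.id)))
  · intro x
    rcases x with _ | ⟨b, w⟩ <;> rfl

theorem range_mrg {A : Set (List Bool)} {h F : List Bool → List Bool} (hh : Set.range h = A)
    (hF : ∀ u, F u ∈ A) : Set.range (mrg h F) = A := by
  apply Set.Subset.antisymm
  · rintro y ⟨x, rfl⟩
    rcases x with _ | ⟨b, w⟩
    · rw [← hh]; exact ⟨[], rfl⟩
    · cases b with
      | false => rw [← hh]; exact ⟨w, rfl⟩
      | true => exact hF w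
  · rw [← hh]
    rintro y ⟨w, rfl⟩
    exact ⟨false :: w, rfl⟩

/-- a polynomial-time function into `A` factors through a p-optimal proof system for `A` -/
theorem factor {A : Set (List Bool)} {h : List Bool → List Bool} (hA : POptimal A h)
    {F : List Bool → List Bool} (hF : Poly F) (hFA : ∀ u, F u ∈ A) :
    ∃ G, Poly G ∧ ∀ u, h (G u) = F u := by
  have hraw := J6H50.RF14.m14
  have hh : Poly h := hraw.1 _ hA.1.1
  obtain ⟨g, hg, hgh⟩ := hA.2 (mrg h F) ⟨hraw.2 _ (poly_mrg hh hF), range_mrg hA.1.2 hFA⟩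
  exact ⟨fun u => g (true :: u), (hraw.1 _ hg).comp (NPC.Poly.cons (NPC.Poly.const _) NPC.Poly.id),
    fun u => hgh (true :: u)⟩

theorem length_pairBits (x w : List Bool) : (pairBits x w).length = 2 * x.length + 1 + w.length := by
  unfold pairBits
  induction x with
  | nil => simp; omega
  | cons b x ih =>
    simp only [List.flatMap_cons, List.cons_append, List.nil_append, List.length_cons] at ih ⊢
    omega

/-- **Closure under bounded universal quantifiers.** -/
theorem closure {A B : Set (List Bool)} (hB : CoNPHard B)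
    {h2 h1 : List Bool → List Bool} (h2A : POptimal A h2) (h1B : POptimal B h1)
    {fA : List Bool → List Bool} (hfAt : PolyTime fA) (p : Polynomial ℕ)
    {L : Set (List Bool)}
    (hLP : ∀ x, x ∈ L ↔ ∀ y : List Bool, y.length ≤ p.eval x.length → fA (pairBits x y) ∈ A)
    (hne : L.Nonempty) : ∃ h, POptimal L h := by
  have hraw := J6H50.RF14.m14
  obtain ⟨x0, hx0⟩ := hne
  have ph2 : Poly h2 := hraw.1 _ h2A.1.1
  have ph1 : Poly h1 := hraw.1 _ h1B.1.1
  have pfA : Poly fA := hraw.1 _ hfAt
  obtain ⟨fB, hfBt, hfB⟩ := hB _ (inCoNPP_PB ph2 pfA p)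
  have pfB : Poly fB := hraw.1 _ hfBt
  have hfB' : ∀ a : D, PB h2 fA p a ↔ fB (bits a) ∈ B := fun a => by
    rw [← hfB, bits_mem_lang]
  have hmemA : ∀ r, h2 r ∈ A := fun r => by rw [← h2A.1.2]; exact ⟨r, rfl⟩
  have hmemB : ∀ r, h1 r ∈ B := fun r => by rw [← h1B.1.2]; exact ⟨r, rfl⟩
  -- soundness
  have hsound : ∀ v, sys x0 h1 fB v ∈ L := by
    intro v
    unfold sys
    rcases unbits (D × List Bool) v with _ | c
    · exact hx0
    · simp only [Option.elim_some]
      split_ifs with hc
      · have h3 : PB h2 fA p c.1 := by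
          rw [hfB', ← hc]
          exact hmemB _
        rw [hLP]
        intro y hy
        have h4 := h3 y hy
        unfold tB at h4
        rcases hU : U c.1.2.1 (pairBits c.1.2.2.1 y) c.1.2.2.2.length with _ | r
        · rw [hU] at h4
          simp at h4
        · rw [hU] at h4
          simp only [Option.elim_some, decide_eq_true_eq] at h4
          rw [← h4]
          exact hmemA _
      · exact hx0
  -- translation
  have key : ∀ Q : List Bool → List Bool, Poly Q → (∀ w, Q w ∈ L) →
      ∃ g, Poly g ∧ ∀ w, sys x0 h1 fB (g w) = Q w := by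
    intro Q hQ hQL
    have hFA : Poly (fun u : List Bool =>
        bif decide ((unpair u).2.length ≤ p.eval (Q (unpair u).1).length) then
          fA (pairBits (Q (unpair u).1) (unpair u).2) else h2 []) := by
      have e1 : Poly (fun u : List Bool => (unpair u).1) := NPC.Poly.fst poly_unpair
      have e2 : Poly (fun u : List Bool => (unpair u).2) := NPC.Poly.snd poly_unpair
      exact NPC.Poly.cond (poly_le p e2 (hQ.comp e1))
        (pfA.comp (poly_pairBits (hQ.comp e1) e2)) (NPC.Poly.const _)
    obtain ⟨G, hG, hGh⟩ := factor h2A hFA (fun u => by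
      by_cases hu : (unpair u).2.length ≤ p.eval (Q (unpair u).1).length
      · simp only [hu, decide_true, cond_true]
        exact (hLP _).1 (hQL _) _ hu
      · simp only [hu, decide_false, cond_false]
        exact hmemA _)
    obtain ⟨e, q, he⟩ := U_complete (hraw.2 G hG)
    -- the time bound
    let s : List Bool → List Unit := fun w =>
      List.replicate (q.eval (2 * w.length + 1 + p.eval (Q w).length)) ()
    have hs : Poly s := by
      have u1 : UPoly (fun w : List Bool => 2 * w.length + 1 + p.eval (Q w).length) :=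
        UPoly.add (UPoly.add (UPoly.mul (UPoly.const 2) (UPoly.length NPC.Poly.id))
          (UPoly.const 1)) ((UPoly.length hQ).eval p)
      exact u1.eval q
    let a : List Bool → D := fun w => (Q w, e, w, s w)
    have ha : Poly a := NPC.Poly.pair hQ (NPC.Poly.pair (NPC.Poly.const e)
      (NPC.Poly.pair NPC.Poly.id hs))
    have haB : ∀ w, fB (bits (a w)) ∈ B := by
      intro w
      rw [← hfB']
      intro y hy
      have h5 : U e (pairBits w y) (s w).length = some (G (pairBits w y)) := by
        apply he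
        rw [length_pairBits]
        simp only [s, List.length_replicate]
        apply eval_mono
        have : y.length ≤ p.eval (Q w).length := hy
        omega
      change tB h2 fA (Q w, e, w, s w) y = true
      unfold tB
      simp only [h5, Option.elim_some, decide_eq_true_eq]
      rw [hGh]
      simp only [unpair_pairBits]
      have h6 : y.length ≤ p.eval (Q w).length := hy
      simp only [h6, decide_true, cond_true]
    obtain ⟨H, hH, hHh⟩ := factor h1B (pfB.comp (poly_bits ha)) haB
    refine ⟨fun w => bits (a w, H w), poly_bits (NPC.Poly.pair ha hH), fun w => ?_⟩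
    unfold sys
    rw [unbits_bits]
    simp only [Option.elim_some, hHh, if_true]
    rfl
  refine ⟨sys x0 h1 fB, ⟨hraw.2 _ (poly_sys x0 ph1 pfB), ?_⟩, ?_⟩
  · apply Set.Subset.antisymm
    · rintro y ⟨v, rfl⟩
      exact hsound v
    · intro x hx
      obtain ⟨g, _, hg⟩ := key (fun _ => x) (NPC.Poly.const _) (fun _ => hx)
      exact ⟨g [], hg []⟩
  · intro h' hh'
    obtain ⟨g, hg, hgh⟩ := key h' (hraw.1 _ hh'.1) (fun w => by rw [← hh'.2]; exact ⟨w, rfl⟩)
    exact ⟨g, hraw.2 _ hg, hgh⟩

/-! ### The second level -/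

/-- the `NP` part of a set in `Π_2^P` -/
def LA (V : List Bool → List Bool) (p : Polynomial ℕ) : Set (List Bool) :=
  {u | ∃ z : List Bool, z.length ≤ p.eval (unpair u).1.length ∧
    V (pairBits (unpair u).1 (pairBits (unpair u).2 z)) = [true]}

theorem len_unpair : ∃ P : Polynomial ℕ, ∀ u : List Bool, (unpair u).1.length ≤ P.eval u.length := by
  obtain ⟨P, hP⟩ := NPC.Poly.sz_le poly_unpair
  refine ⟨P.comp (4 * Polynomial.X + 1), fun u => ?_⟩
  rw [Polynomial.eval_comp]
  have h1 : sz (unpair u) ≤ P.eval (sz u) := hP u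
  have h2 : P.eval (sz u) ≤ P.eval (Polynomial.eval u.length (4 * Polynomial.X + 1)) := by
    apply eval_mono
    simp only [Polynomial.eval_add, Polynomial.eval_mul, Polynomial.eval_ofNat,
      Polynomial.eval_one, Polynomial.eval_X]
    exact sz_listBool_le u
  exact (fst_le (unpair u)).trans (h1.trans h2)

theorem inNP_LA {V : List Bool → List Bool} (hV : Poly V) (p : Polynomial ℕ) : InNP (LA V p) := by
  obtain ⟨P, hP⟩ := len_unpair
  have e1 : Poly (fun w : List Bool => (unpair w).2) := NPC.Poly.snd poly_unpair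
  have e2 : Poly (fun w : List Bool => (unpair (unpair w).1).1) :=
    NPC.Poly.fst (poly_unpair.comp (NPC.Poly.fst poly_unpair))
  have e3 : Poly (fun w : List Bool => (unpair (unpair w).1).2) :=
    NPC.Poly.snd (poly_unpair.comp (NPC.Poly.fst poly_unpair))
  refine ⟨fun w => [decide ((unpair w).2.length ≤ p.eval (unpair (unpair w).1).1.length) &&
    decide (V (pairBits (unpair (unpair w).1).1 (pairBits (unpair (unpair w).1).2 (unpair w).2)) =
      [true])], p.comp P, polyTime_of_poly (NPC.Poly.and (poly_le p e1 e2) (NPC.Poly.decide_eq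
        (hV.comp (poly_pairBits e2 (poly_pairBits e3 e1))) (NPC.Poly.const _))), fun u => ?_⟩
  unfold LA
  rw [Set.mem_ofPred_eq]
  constructor
  · rintro ⟨z, hz, hVz⟩
    refine ⟨z, ?_, by simp [unpair_pairBits, hz, hVz]⟩
    rw [Polynomial.eval_comp]
    exact hz.trans (eval_mono p (hP u))
  · rintro ⟨z, _, hz⟩
    simp only [unpair_pairBits, List.cons.injEq, and_true, Bool.and_eq_true,
      decide_eq_true_eq] at hz
    exact ⟨z, hz.1, hz.2⟩

/-- **The theorem on the second level.** -/
theorem pi2 {A B : Set (List Bool)} (hA : NPHard A) (hB : CoNPHard B)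
    {h2 h1 : List Bool → List Bool} (h2A : POptimal A h2) (h1B : POptimal B h1)
    {L : Set (List Bool)} (hL : InPi2 L) (hne : L.Nonempty) : ∃ h, POptimal L h := by
  obtain ⟨V, p, hVt, hLV⟩ := hL
  obtain ⟨f, hf, hfA⟩ := hA _ (inNP_LA (J6H50.RF14.m14.1 V hVt) p)
  refine closure hB h2A h1B hf p (fun x => ?_) hne
  rw [hLV x]
  refine forall_congr' fun y => forall_congr' fun _ => ?_
  rw [← hfA]
  unfold LA
  rw [Set.mem_ofPred_eq, unpair_pairBits]

theorem inPi2_of_inNP {L : Set (List Bool)} (h : InNP L) : InPi2 L := by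
  obtain ⟨V, p, hV, hL⟩ := h
  have hVp : Poly V := J6H50.RF14.m14.1 V hV
  have e1 : Poly (fun w : List Bool => (unpair w).1) := NPC.Poly.fst poly_unpair
  have e2 : Poly (fun w : List Bool => (unpair (unpair w).2).2) :=
    NPC.Poly.snd (poly_unpair.comp (NPC.Poly.snd poly_unpair))
  refine ⟨fun w => V (pairBits (unpair w).1 (unpair (unpair w).2).2), p,
    J6H50.RF14.m14.2 _ (hVp.comp (poly_pairBits e1 e2)), fun x => ?_⟩
  simp only [unpair_pairBits]
  rw [hL x]
  constructor
  · intro h y _
    exact h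
  · intro h
    exact h [] (Nat.zero_le _)

theorem inPi2_of_inCoNP {L : Set (List Bool)} (h : InCoNP L) : InPi2 L := by
  obtain ⟨V, p, hV, hL⟩ := h
  have hVp : Poly V := J6H50.RF14.m14.1 V hV
  have e1 : Poly (fun w : List Bool => (unpair w).1) := NPC.Poly.fst poly_unpair
  have e2 : Poly (fun w : List Bool => (unpair (unpair w).2).1) :=
    NPC.Poly.fst (poly_unpair.comp (NPC.Poly.snd poly_unpair))
  refine ⟨fun w => [!decide (V (pairBits (unpair w).1 (unpair (unpair w).2).1) = [true])], p,
    polyTime_of_poly (NPC.Poly.not (NPC.Poly.decide_eq (hVp.comp (poly_pairBits e1 e2))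
      (NPC.Poly.const _))), fun x => ?_⟩
  simp only [unpair_pairBits]
  have h1 : x ∈ L ↔ ¬ x ∈ Lᶜ := by simp
  rw [h1, hL x]
  constructor
  · intro h y hy
    refine ⟨[], Nat.zero_le _, ?_⟩
    have h2 : ¬ V (pairBits x y) = [true] := fun h3 => h ⟨y, hy, h3⟩
    simp [h2]
  · rintro h ⟨y, hy, hVy⟩
    obtain ⟨_, _, h2⟩ := h y hy
    simp [hVy] at h2

/-! ### Complete sets -/

/-- the data of the universal sets -/
abbrev E : Type := (T × List Unit) × List Bool × List Unit × List Unit

/-- the machine with the certificate `z` accepts -/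
def acc (a : E) (z : List Bool) : Bool :=
  decide (z.length ≤ a.2.2.1.length) && decide (U a.1 (pairBits a.2.1 z) a.2.2.2.length = some [true])

theorem poly_acc : Poly (fun c : E × List Bool => acc c.1 c.2) := by
  unfold acc
  refine NPC.Poly.and (by fun_prop) (NPC.Poly.decide_eq ?_ (NPC.Poly.const _))
  exact poly_U.comp (f := fun c : E × List Bool => (c.1.1, pairBits c.1.2.1 c.2, c.1.2.2.2))
    (NPC.Poly.pair (by fun_prop) (NPC.Poly.pair (poly_pairBits (by fun_prop) (by fun_prop))
      (by fun_prop)))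

/-- an `NP`-complete problem -/
def PN (a : E) : Prop := ∃ z, acc a z = true

/-- a `coNP`-complete problem -/
def PC' (a : E) : Prop := ¬ PN a

theorem PN_iff (a : E) : PN a ↔ ∃ z : List Bool, sz z ≤ (4 * Polynomial.X + 1 : Polynomial ℕ).eval
    (sz a) ∧ acc a z = true := by
  constructor
  · rintro ⟨z, hz⟩
    refine ⟨z, ?_, hz⟩
    simp only [Polynomial.eval_add, Polynomial.eval_mul, Polynomial.eval_ofNat,
      Polynomial.eval_one, Polynomial.eval_X]
    have h1 := sz_listBool_le z
    have h2 : z.length ≤ a.2.2.1.length := by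
      unfold acc at hz
      simp only [Bool.and_eq_true, decide_eq_true_eq] at hz
      exact hz.1
    have h3 : a.2.2.1.length ≤ sz a := by
      obtain ⟨a1, a2, a3, a4⟩ := a
      have := length_lt_sz a3
      simp only [sz_pair]
      change a3.length ≤ _
      omega
    omega
  · rintro ⟨z, _, hz⟩
    exact ⟨z, hz⟩

theorem inNPP_PN : InNPP PN := inNPP_of (β := List Bool) (R := fun c => acc c.1 c.2) poly_acc _ PN_iff

theorem inCoNPP_PC : InCoNPP PC' := inCoNPP_of (β := List Bool) (R := fun c => acc c.1 c.2) poly_acc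
  (4 * Polynomial.X + 1) (fun a => by
    unfold PC'
    rw [not_not]
    exact PN_iff a)

theorem red {L : Set (List Bool)} (h : InNP L) :
    ∃ f : List Bool → E, Poly f ∧ ∀ x, x ∈ L ↔ PN (f x) := by
  obtain ⟨V, p, hV, hL⟩ := h
  obtain ⟨e, q, he⟩ := U_complete hV
  have u0 : UPoly (fun x : List Bool => x.length) := UPoly.length NPC.Poly.id
  have u1 : UPoly (fun x : List Bool => p.eval x.length) := u0.eval p
  have u2 : UPoly (fun x : List Bool => q.eval (2 * x.length + 1 + p.eval x.length)) :=
    (UPoly.add (UPoly.add (UPoly.mul (UPoly.const 2) u0) (UPoly.const 1)) u1).eval q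
  refine ⟨fun x => (e, x, List.replicate (p.eval x.length) (),
    List.replicate (q.eval (2 * x.length + 1 + p.eval x.length)) ()),
    NPC.Poly.pair (NPC.Poly.const e) (NPC.Poly.pair NPC.Poly.id (NPC.Poly.pair u1 u2)), fun x => ?_⟩
  rw [hL x]
  unfold PN acc
  refine exists_congr fun z => ?_
  simp only [List.length_replicate, Bool.and_eq_true, decide_eq_true_eq]
  constructor
  · rintro ⟨h1, h2⟩
    refine ⟨h1, ?_⟩
    rw [he _ _ (by rw [length_pairBits]; exact eval_mono q (by omega)), h2]
  · rintro ⟨h1, h2⟩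
    refine ⟨h1, ?_⟩
    rw [he _ _ (by rw [length_pairBits]; exact eval_mono q (by omega))] at h2
    exact Option.some.inj h2

theorem npHard_PN : NPHard (lang PN) := by
  intro L hL
  obtain ⟨f, hf, hfL⟩ := red hL
  exact ⟨fun x => bits (f x), J6H50.RF14.m14.2 _ (poly_bits hf), fun x => by
    rw [hfL x, bits_mem_lang]⟩

theorem coNPHard_PC : CoNPHard (lang PC') := by
  intro L hL
  obtain ⟨f, hf, hfL⟩ := red hL
  exact ⟨fun x => bits (f x), J6H50.RF14.m14.2 _ (poly_bits hf), fun x => by
    rw [bits_mem_lang]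
    unfold PC'
    rw [← hfL x]
    simp⟩

theorem inNP_univ : InNP (Set.univ : Set (List Bool)) :=
  ⟨fun _ => [true], 0, polyTime_of_poly (g := fun _ => true) (NPC.Poly.const true), fun x =>
    ⟨fun _ => ⟨[], Nat.zero_le _, rfl⟩, fun _ => trivial⟩⟩

theorem inNP_empty : InNP (∅ : Set (List Bool)) :=
  ⟨fun _ => [false], 0, polyTime_of_poly (g := fun _ => false) (NPC.Poly.const false), fun x =>
    ⟨fun h => h.elim, fun ⟨_, _, h⟩ => by simp at h⟩⟩

theorem NPHard.nonempty {A : Set (List Bool)} (h : NPHard A) : A.Nonempty := by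
  obtain ⟨f, _, hf⟩ := h _ inNP_univ
  exact ⟨f [], (hf []).1 trivial⟩

theorem CoNPHard.nonempty {A : Set (List Bool)} (h : CoNPHard A) : A.Nonempty := by
  obtain ⟨f, _, hf⟩ := h Set.univ (by unfold InCoNP; rw [Set.compl_univ]; exact inNP_empty)
  exact ⟨f [], (hf []).1 trivial⟩

/-- **Equivalence.** -/
theorem equiv : ((∃ A h, NPHard A ∧ POptimal A h) ∧ (∃ B h, CoNPHard B ∧ POptimal B h)) ↔
    ∀ L, InPi2 L → L.Nonempty → ∃ h, POptimal L h := by
  constructor
  · rintro ⟨⟨A, h2, hA, h2A⟩, ⟨B, h1, hB, h1B⟩⟩ L hL hne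
    exact pi2 hA hB h2A h1B hL hne
  · intro h
    obtain ⟨h2, hh2⟩ := h _ (inPi2_of_inNP inNPP_PN) (NPHard.nonempty npHard_PN)
    obtain ⟨h1, hh1⟩ := h _ (inPi2_of_inCoNP inCoNPP_PC) (CoNPHard.nonempty coNPHard_PC)
    exact ⟨⟨_, h2, npHard_PN, hh2⟩, ⟨_, h1, coNPHard_PC, hh1⟩⟩

/-- Under the known implications, the statement of the problem is equivalent to the non-existence of
a p-optimal proof system for some nonempty set in `Π_2^P`. -/
theorem back {P : Prop} (h1 : ∀ A, NPHard A → InNP A → (¬ ∃ h, POptimal A h) → P)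
    (h2 : ∀ B, CoNPHard B → InCoNP B → (¬ ∃ h, POptimal B h) → P)
    (h3 : ∃ L, InPi2 L ∧ L.Nonempty ∧ ¬ ∃ h, POptimal L h) : P := by
  by_contra hP
  obtain ⟨L, hL, hne, hno⟩ := h3
  apply hno
  have e1 : ∃ h, POptimal (lang PN) h := by
    by_contra h
    exact hP (h1 _ npHard_PN inNPP_PN h)
  have e2 : ∃ h, POptimal (lang PC') h := by
    by_contra h
    exact hP (h2 _ coNPHard_PC inCoNPP_PC h)
  obtain ⟨g1, hg1⟩ := e1
  obtain ⟨g2, hg2⟩ := e2
  exact pi2 npHard_PN coNPHard_PC hg1 hg2 hL hne

/-- the set with one element has a p-optimal proof system -/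
theorem pOptimal_one : POptimal {[true]} (fun _ => [true]) := by
  refine ⟨⟨polyTime_of_poly (g := fun _ => true) (NPC.Poly.const true), ?_⟩, fun h' hh' =>
    ⟨fun w => w, polyTime_id, fun w => ?_⟩⟩
  · ext x
    simp [eq_comm]
  · have h1 : h' w ∈ Set.range h' := ⟨w, rfl⟩
    rw [hh'.2] at h1
    exact h1.symm

/-- **Characterisation.** -/
theorem closure_iff : (∃ B h, CoNPHard B ∧ POptimal B h) ↔
    ∀ (A L : Set (List Bool)) (f : List Bool → List Bool) (p : Polynomial ℕ),
      (∃ h, POptimal A h) → PolyTime f →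
      (∀ x, x ∈ L ↔ ∀ y : List Bool, y.length ≤ p.eval x.length → f (pairBits x y) ∈ A) →
      L.Nonempty → ∃ h, POptimal L h := by
  constructor
  · rintro ⟨B, h1, hB, h1B⟩ A L f p ⟨h2, h2A⟩ hf hL hne
    exact closure hB h2A h1B hf p hL hne
  · intro h
    obtain ⟨V, p, hV, hL⟩ := inCoNPP_PC
    have hVp : Poly V := J6H50.RF14.m14.1 V hV
    obtain ⟨h1, hh1⟩ := h {[true]} (lang PC') (fun w => [!decide (V w = [true])]) p
      ⟨_, pOptimal_one⟩ (polyTime_of_poly (NPC.Poly.not (NPC.Poly.decide_eq hVp
        (NPC.Poly.const _)))) (fun x => by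
          have h1 : x ∈ lang PC' ↔ ¬ x ∈ (lang PC')ᶜ := by simp
          rw [h1, hL x]
          constructor
          · intro h2 y hy
            have h3 : ¬ V (pairBits x y) = [true] := fun h3 => h2 ⟨y, hy, h3⟩
            simp [h3]
          · rintro h2 ⟨y, hy, h3⟩
            have := h2 y hy
            simp [h3] at this) (CoNPHard.nonempty coNPHard_PC)
    exact ⟨_, h1, coNPHard_PC, hh1⟩

/-! ### Certificates -/

/-- Certificates from a p-optimal proof system for a set to which the conditions reduce (module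
`RF-23` of helper61, with this hypothesis). -/
theorem cert (μ : Fm) (L : Set (List Bool))
    (hred : Reduces (lang fun a : ℕ × List Unit × List Unit => Cond μ a.1 a.2.1.length a.2.2.length)
      L) (hopt : ∃ h, POptimal L h) : ∃ C, Cert μ C := by
  have hraw := J6H50.RF14.m14
  obtain ⟨h, hopt⟩ := hopt
  obtain ⟨f, hf, hfL⟩ := hred
  have hP : Poly h := hraw.1 h hopt.1.1
  have fP : Poly f := hraw.1 f hf
  have hmem : ∀ (e : ℕ) (n t : List Unit),
      f (bits (e, n, t)) ∈ L ↔ Cond μ e n.length t.length := by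
    intro e n t
    rw [← hfL]
    exact bits_mem_lang (P := fun a : ℕ × List Unit × List Unit => Cond μ a.1 a.2.1.length a.2.2.length)
      (a := (e, n, t))
  have hin : ∀ w, h w ∈ L := by
    intro w
    rw [← hopt.1.2]
    exact ⟨w, rfl⟩
  refine ⟨fun a => decide (h a.2.2.2 = f (bits (a.1, a.2.1, a.2.2.1))), ?_, ?_, ?_⟩
  · exact NPC.Poly.decide_eq (hP.comp (NPC.Poly.snd (NPC.Poly.snd (NPC.Poly.snd NPC.Poly.id))))
      (fP.comp (poly_bits (NPC.Poly.pair (NPC.Poly.fst NPC.Poly.id)
        (NPC.Poly.pair (NPC.Poly.fst (NPC.Poly.snd NPC.Poly.id)) (NPC.Poly.fst (NPC.Poly.snd (NPC.Poly.snd NPC.Poly.id)))))))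
  · intro e n t π hC
    have h1 : h π = f (bits (e, n, t)) := of_decide_eq_true hC
    rw [← hmem, ← h1]
    exact hin π
  · intro e t ht hcond
    have hU : Poly (fun w : List Bool => w.map (fun _ => ())) :=
      NPC.Poly.map (l := fun w : List Bool => w) (F := fun _ _ => ())
        NPC.Poly.id (NPC.Poly.const _)
    have hF : Poly (fun w : List Bool =>
        f (bits (e, w.map (fun _ => ()), t (w.map (fun _ => ()))))) :=
      fP.comp (poly_bits (NPC.Poly.pair (NPC.Poly.const e) (NPC.Poly.pair hU (ht.comp hU))))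
    obtain ⟨G, hG, hGh⟩ := factor hopt hF (fun w => by
      rw [hmem]
      exact hcond _)
    refine ⟨fun n => G (n.map (fun _ => true)), ?_, ?_⟩
    · exact hG.comp (NPC.Poly.map (l := fun n : List Unit => n) (F := fun _ _ => true) NPC.Poly.id
        (NPC.Poly.const _))
    · intro n
      apply decide_eq_true
      change h (G (n.map (fun _ => true))) = f (bits (e, n, t n))
      rw [hGh]
      have hn : (n.map (fun _ => true)).map (fun _ => ()) = n := by
        rw [List.map_map]
        exact List.map_id'' (fun _ => rfl) n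
      rw [hn]

/-- Certificates if all nonempty sets in `Π_2^P` have p-optimal proof systems. -/
theorem cert_of_all (μ : Fm)
    (hpi : InPi2 (lang fun a : ℕ × List Unit × List Unit => Cond μ a.1 a.2.1.length a.2.2.length))
    (hall : ∀ L, InPi2 L → L.Nonempty → ∃ h, POptimal L h) : ∃ C, Cert μ C := by
  by_cases hne : (lang fun a : ℕ × List Unit × List Unit =>
      Cond μ a.1 a.2.1.length a.2.2.length).Nonempty
  · exact cert μ _ ⟨fun x => x, polyTime_id, fun x => Iff.rfl⟩ (hall _ hpi hne)
  · refine ⟨fun _ => false, NPC.Poly.const _, fun _ _ _ _ h => by simp at h, fun e t _ h => ?_⟩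
    exfalso
    apply hne
    exact ⟨bits ((e, [], t []) : ℕ × List Unit × List Unit), bits_mem_lang.2 (h [])⟩

end Pool.Agent.J6H50.RF.PP
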