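import Pool.Agent.J6H50.RF.Stm
import Pool.Agent.H591R2.RawOut

/-!
# Project RF: raw strings and coded strings
-/

set_option autoImplicit false

namespace Pool.Agent.J6H50.RF14

open Pool.Agent.J6H50.RF Pool.Agent.NPC

theorem m14 : S_raw := by
  constructor
  · intro f hf
    have h1 : PC (fun x : List Bool => x) (fun x : List Bool => x) f :=
      H642R2.TMSim.polyTime_toPC hf
    have h2 : PC (bits : List Bool → List Bool) (fun x : List Bool => x) f :=
      PC.comp (g := f) (f := fun x => x) h1 R591.rawOut
    exact PC.comp (g := fun x => x) (f := f) PC.rawIn h2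
  · intro f hf
    exact PC.toPolyTime (R591.raw hf)

end Pool.Agent.J6H50.RF14
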