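import Pool.Agent.J6H50.RF.Stm

/-!
# Project RF: assembly
-/

set_option autoImplicit false

namespace Pool.Agent.J6H50.RF25

open Pool.Agent.J6H50.RF Pool.Agent.NPC

theorem tm_occ_bdd (t : Tm) : ∃ B, ∀ i, t.Occ i → i < B := by
  induction t with
  | var j => exact ⟨j + 1, fun i h => by simp only [Tm.Occ] at h; omega⟩
  | zero => exact ⟨0, fun i h => by simp only [Tm.Occ] at h⟩
  | suc t ih => obtain ⟨B, hB⟩ := ih; exact ⟨B, fun i h => hB i h⟩
  | len t ih => obtain ⟨B, hB⟩ := ih; exact ⟨B, fun i h => hB i h⟩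
  | half t ih => obtain ⟨B, hB⟩ := ih; exact ⟨B, fun i h => hB i h⟩
  | add s t ih ih' =>
    obtain ⟨B, hB⟩ := ih
    obtain ⟨B', hB'⟩ := ih'
    exact ⟨B + B', fun i h => h.elim (fun h => by have := hB i h; omega)
      (fun h => by have := hB' i h; omega)⟩
  | mul s t ih ih' =>
    obtain ⟨B, hB⟩ := ih
    obtain ⟨B', hB'⟩ := ih'
    exact ⟨B + B', fun i h => h.elim (fun h => by have := hB i h; omega)
      (fun h => by have := hB' i h; omega)⟩
  | smash s t ih ih' =>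
    obtain ⟨B, hB⟩ := ih
    obtain ⟨B', hB'⟩ := ih'
    exact ⟨B + B', fun i h => h.elim (fun h => by have := hB i h; omega)
      (fun h => by have := hB' i h; omega)⟩

theorem fm_occ_bdd (φ : Fm) : ∃ B, ∀ i, φ.Occ i → i < B := by
  induction φ with
  | bot => exact ⟨0, fun i h => by simp only [Fm.Occ] at h⟩
  | eq s t =>
    obtain ⟨B, hB⟩ := tm_occ_bdd s
    obtain ⟨B', hB'⟩ := tm_occ_bdd t
    exact ⟨B + B', fun i h => h.elim (fun h => by have := hB i h; omega)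
      (fun h => by have := hB' i h; omega)⟩
  | le s t =>
    obtain ⟨B, hB⟩ := tm_occ_bdd s
    obtain ⟨B', hB'⟩ := tm_occ_bdd t
    exact ⟨B + B', fun i h => h.elim (fun h => by have := hB i h; omega)
      (fun h => by have := hB' i h; omega)⟩
  | imp φ ψ ih ih' =>
    obtain ⟨B, hB⟩ := ih
    obtain ⟨B', hB'⟩ := ih'
    exact ⟨B + B', fun i h => h.elim (fun h => by have := hB i h; omega)
      (fun h => by have := hB' i h; omega)⟩
  | all j φ ih =>
    obtain ⟨B, hB⟩ := ih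
    exact ⟨B + j + 1, fun i h => h.elim (fun h => by omega)
      (fun h => by have := hB i h; omega)⟩

theorem gen {T : Set Fm} {φ : Fm} (i : ℕ) (h : Provable T φ) : Provable T (.all i φ) := by
  obtain ⟨P, hP, hh⟩ := h
  exact ⟨.all i φ :: P, ⟨hP, Or.inr (Or.inr (Or.inr ⟨i, φ, List.mem_of_mem_head? hh, rfl⟩))⟩, rfl⟩

theorem ofLog {T : Set Fm} {φ : Fm} (h : Log φ) : Provable T φ :=
  ⟨[φ], ⟨trivial, Or.inr (Or.inl h)⟩, rfl⟩

theorem m25 : S_asm := by
  intro _hdep _hsound hbas hbasN hpind _hnum hqd hone hcond hax hdec hcon μ hμ hC hQ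
  obtain ⟨C, hC⟩ := hC
  have hN12 : Models Nn S12 := by
    intro φ hφ v
    rcases hφ with h | ⟨i, j, ψ, hij, hocc, _, rfl⟩
    · exact (hbas Nn).2 hbasN φ h v
    · exact hpind i j ψ hij hocc v
  have hS : IsTh (S12 ∪ AS μ C) := ⟨AS μ C, hdec μ C hC.poly, rfl, ℕ, Nn, fun φ hφ v => by
    rcases hφ with h | ⟨w, h1, h2, rfl⟩
    · exact hN12 φ h v
    · exact hax μ hμ.free w h1 (hC.sound _ _ _ _ h2) v⟩
  obtain ⟨T, Prov, hT, hP, hno⟩ := hQ _ hS
  apply hno
  obtain ⟨B, hB⟩ := fm_occ_bdd Prov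
  have hj : ¬ Prov.Occ (B + 4) := fun h => by have := hB _ h; omega
  have hind : Provable S12 (ind B Prov) :=
    gen 0 (gen 1 (gen 2 (gen 3 (ofLog (Log.vac (B + 4) Prov hj)))))
  have h1 := hone hqd
  obtain ⟨e, p, hp⟩ := hμ.univ (one B Prov) (h1.1 B Prov hP.sb) (h1.2.1 B Prov hP.free)
  have hhyp : Provable S12 (hyp μ B Prov e p) := gen 1 (gen 2 hp)
  exact hcon μ C hC Prov B e p hind hhyp (hcond μ T Prov B e p hμ hT hP hj hhyp)

end Pool.Agent.J6H50.RF25
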