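import Pool.Agent.J6H26.RF.M01
import Pool.Agent.J6H57.RF.M02
import Pool.Agent.J6H82.RF.M03
import Pool.Agent.J6H61.RF.M04
import Pool.Agent.J6H31.RF.M05
import Pool.Agent.J6H62.RF.M06
import Pool.Agent.J6H94.RF.M07
import Pool.Agent.J6H99.RF.M08
import Pool.Agent.J6H9.RF.M09
import Pool.Agent.J6H33.RF.M10
import Pool.Agent.J6H27.RF.M11
import Pool.Agent.J6H99.RF.M12
import Pool.Agent.J6H31.RF.M13
import Pool.Agent.J6H50.RF.M14
import Pool.Agent.J6H88.RF.M15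
import Pool.Agent.J6H73.RF.M16
import Pool.Agent.J6H81.RF.M17
import Pool.Agent.J6H94.RF.M18
import Pool.Agent.J6H47.RF.M19
import Pool.Agent.J6H1.RF.M20
import Pool.Agent.J6H77.RF.M21
import Pool.Agent.J6H22.RF.M22
import Pool.Agent.J6H61.RF.M23
import Pool.Agent.J6H33.RF.M24
import Pool.Agent.J6H50.RF.M25
import Pool.Agent.J6H50.RF.Closure

/-!
# Project RF: the theorem
-/

set_option autoImplicit false

namespace Pool.Agent.J6H50.RF

open Pool.Agent.NPC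

/-- certificates refute `Q1` -/
theorem hcert (μ : Fm) (hμ : Univ μ) : (∃ C, Cert μ C) → ¬ Q1 μ := by
  have hcond := J6H31.RF13.m13 J6H26.RF01.m01 J6H57.RF02.m02 J6H82.RF03.m03 J6H61.RF04.m04
    J6H31.RF05.m05 J6H62.RF06.m06 J6H94.RF07.m07 J6H99.RF08.m08 J6H9.RF09.m09 J6H33.RF10.m10
    J6H27.RF11.m11
  exact J6H50.RF25.m25 J6H26.RF01.m01 J6H57.RF02.m02 J6H82.RF03.m03 J6H61.RF04.m04
    J6H31.RF05.m05 J6H9.RF09.m09 J6H33.RF10.m10 J6H27.RF11.m11 hcond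
    (J6H99.RF12.m12 J6H26.RF01.m01 J6H9.RF09.m09 J6H33.RF10.m10 J6H27.RF11.m11)
    (J6H73.RF16.m16 J6H88.RF15.m15) (J6H81.RF17.m17 J6H88.RF15.m15 J6H50.RF14.m14) μ hμ

theorem main : MAIN := by
  intro μ hμ hQ
  have hnp := J6H47.RF19.m19 J6H94.RF18.m18
  refine ⟨fun L hL hh => ?_, ?_⟩
  · exact hcert μ hμ (J6H61.RF23.m23 J6H50.RF14.m14 μ (J6H77.RF21.m21 J6H1.RF20.m20 hnp μ hμ.sb) L
      hL hh) hQ
  · by_contra h
    push Not at h
    exact hcert μ hμ (J6H33.RF24.m24 J6H50.RF14.m14 J6H33.RF10.m10 μ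
      (J6H22.RF22.m22 J6H1.RF20.m20 hnp μ hμ.sb) h) hQ

/-- `Q1` implies that some nonempty set in `Π_2^P` has no p-optimal proof system -/
theorem main2 (μ : Fm) (hμ : Univ μ) (hQ : Q1 μ) :
    ∃ L, InPi2 L ∧ L.Nonempty ∧ ¬ ∃ h, POptimal L h := by
  by_contra hno
  have hall : ∀ L, InPi2 L → L.Nonempty → ∃ h, POptimal L h := by
    intro L hL hne
    by_contra h
    exact hno ⟨L, hL, hne, h⟩
  exact hcert μ hμ (PP.cert_of_all μ
    (J6H77.RF21.m21 J6H1.RF20.m20 (J6H47.RF19.m19 J6H94.RF18.m18) μ hμ.sb) hall) hQ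

end Pool.Agent.J6H50.RF
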