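import Pool.Agent.NPC.Dec

/-!
# Bounded arithmetic `S^1_2` and finite uniform `Σ^b_1`-reflection: definitions

Polynomial time is `Pool.Agent.NPC.PolyTime` (Turing machines of Mathlib on bit strings), `bits` is
the bit string which codes a formula or a list of formulas, `InPP A` means that the set of the codes
of the elements of `A` is decidable in polynomial time.
-/

set_option autoImplicit false

namespace Pool.Agent.J6H50.RF

open Pool.Agent.NPC

/-! ### Formulas -/

/-- The terms of the language of `S^1_2`: variables, `0`, `S`, `+`, `*`, `#`, `|x|`, `⌊x/2⌋`. -/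
inductive Tm : Type
  | var (i : ℕ)
  | zero
  | suc (t : Tm)
  | add (s t : Tm)
  | mul (s t : Tm)
  | smash (s t : Tm)
  | len (t : Tm)
  | half (t : Tm)
  deriving DecidableEq

/-- The formulas, built from `⊥`, `s = t`, `s ≤ t` by `→` and `∀`. -/
inductive Fm : Type
  | bot
  | eq (s t : Tm)
  | le (s t : Tm)
  | imp (φ ψ : Fm)
  | all (i : ℕ) (φ : Fm)
  deriving DecidableEq

/-- the tree which codes a term -/
def Tm.tree : Tm → T
  | .var i => toT ((0 : ℕ), i)
  | .zero => toT ((1 : ℕ), ())
  | .suc t => toT ((2 : ℕ), t.tree)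
  | .add s t => toT ((3 : ℕ), s.tree, t.tree)
  | .mul s t => toT ((4 : ℕ), s.tree, t.tree)
  | .smash s t => toT ((5 : ℕ), s.tree, t.tree)
  | .len t => toT ((6 : ℕ), t.tree)
  | .half t => toT ((7 : ℕ), t.tree)

/-- the tree which codes a formula -/
def Fm.tree : Fm → T
  | .bot => toT ((0 : ℕ), ())
  | .eq s t => toT ((1 : ℕ), s.tree, t.tree)
  | .le s t => toT ((2 : ℕ), s.tree, t.tree)
  | .imp φ ψ => toT ((3 : ℕ), φ.tree, ψ.tree)
  | .all i φ => toT ((4 : ℕ), i, φ.tree)

theorem pair_inj {α β : Type} [TEnc α] [TEnc β] {m n : ℕ} {a : α} {b : β}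
    (h : toT (m, a) = toT (n, b)) : m = n ∧ toT a = toT b := by
  simp only [toT_pair, T.node.injEq] at h
  exact ⟨TEnc.inj h.1, h.2⟩

theorem Tm.tree_inj : ∀ s t : Tm, s.tree = t.tree → s = t := by
  intro s
  induction s with
  | var i =>
    intro t h
    cases t <;> simp only [Tm.tree] at h <;> have h' := pair_inj h <;>
      first | (exact absurd h'.1 (by decide)) | skip
    rw [TEnc.inj h'.2]
  | zero =>
    intro t h
    cases t <;> first | rfl | (simp only [Tm.tree] at h; exact absurd (pair_inj h).1 (by decide))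
  | suc s ih =>
    intro t h
    cases t <;> simp only [Tm.tree] at h <;> have h' := pair_inj h <;>
      first | (exact absurd h'.1 (by decide)) | skip
    rw [ih _ h'.2]
  | add s s' ih ih' =>
    intro t h
    cases t <;> simp only [Tm.tree] at h <;> have h' := pair_inj h <;>
      first | (exact absurd h'.1 (by decide)) | skip
    have h2 := h'.2
    simp only [toT_pair, T.node.injEq] at h2
    rw [ih _ h2.1, ih' _ h2.2]
  | mul s s' ih ih' =>
    intro t h
    cases t <;> simp only [Tm.tree] at h <;> have h' := pair_inj h <;>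
      first | (exact absurd h'.1 (by decide)) | skip
    have h2 := h'.2
    simp only [toT_pair, T.node.injEq] at h2
    rw [ih _ h2.1, ih' _ h2.2]
  | smash s s' ih ih' =>
    intro t h
    cases t <;> simp only [Tm.tree] at h <;> have h' := pair_inj h <;>
      first | (exact absurd h'.1 (by decide)) | skip
    have h2 := h'.2
    simp only [toT_pair, T.node.injEq] at h2
    rw [ih _ h2.1, ih' _ h2.2]
  | len s ih =>
    intro t h
    cases t <;> simp only [Tm.tree] at h <;> have h' := pair_inj h <;>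
      first | (exact absurd h'.1 (by decide)) | skip
    rw [ih _ h'.2]
  | half s ih =>
    intro t h
    cases t <;> simp only [Tm.tree] at h <;> have h' := pair_inj h <;>
      first | (exact absurd h'.1 (by decide)) | skip
    rw [ih _ h'.2]

instance : TEnc Tm := ⟨Tm.tree, fun _ _ h => Tm.tree_inj _ _ h⟩

theorem Fm.tree_inj : ∀ φ ψ : Fm, φ.tree = ψ.tree → φ = ψ := by
  intro φ
  induction φ with
  | bot =>
    intro ψ h
    cases ψ <;> first | rfl | (simp only [Fm.tree] at h; exact absurd (pair_inj h).1 (by decide))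
  | eq s t =>
    intro ψ h
    cases ψ <;> simp only [Fm.tree] at h <;> have h' := pair_inj h <;>
      first | (exact absurd h'.1 (by decide)) | skip
    have h2 := h'.2
    simp only [toT_pair, T.node.injEq] at h2
    rw [Tm.tree_inj _ _ h2.1, Tm.tree_inj _ _ h2.2]
  | le s t =>
    intro ψ h
    cases ψ <;> simp only [Fm.tree] at h <;> have h' := pair_inj h <;>
      first | (exact absurd h'.1 (by decide)) | skip
    have h2 := h'.2
    simp only [toT_pair, T.node.injEq] at h2
    rw [Tm.tree_inj _ _ h2.1, Tm.tree_inj _ _ h2.2]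
  | imp φ φ' ih ih' =>
    intro ψ h
    cases ψ <;> simp only [Fm.tree] at h <;> have h' := pair_inj h <;>
      first | (exact absurd h'.1 (by decide)) | skip
    have h2 := h'.2
    simp only [toT_pair, T.node.injEq] at h2
    rw [ih _ h2.1, ih' _ h2.2]
  | all i φ ih =>
    intro ψ h
    cases ψ <;> simp only [Fm.tree] at h <;> have h' := pair_inj h <;>
      first | (exact absurd h'.1 (by decide)) | skip
    have h2 := h'.2
    simp only [toT_pair, T.node.injEq] at h2
    rw [TEnc.inj h2.1, ih _ h2.2]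

instance : TEnc Fm := ⟨Fm.tree, fun _ _ h => Fm.tree_inj _ _ h⟩

/-- the variable `x_i` occurs in the term -/
def Tm.Occ (i : ℕ) : Tm → Prop
  | .var j => i = j
  | .zero => False
  | .suc t => t.Occ i
  | .add s t => s.Occ i ∨ t.Occ i
  | .mul s t => s.Occ i ∨ t.Occ i
  | .smash s t => s.Occ i ∨ t.Occ i
  | .len t => t.Occ i
  | .half t => t.Occ i

/-- the variable `x_i` occurs in the formula (free, bound, or next to a quantifier) -/
def Fm.Occ (i : ℕ) : Fm → Prop
  | .bot => False
  | .eq s t => s.Occ i ∨ t.Occ i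
  | .le s t => s.Occ i ∨ t.Occ i
  | .imp φ ψ => φ.Occ i ∨ ψ.Occ i
  | .all j φ => i = j ∨ φ.Occ i

/-- the variable `x_i` occurs free in the formula -/
def Fm.Free (i : ℕ) : Fm → Prop
  | .bot => False
  | .eq s t => s.Occ i ∨ t.Occ i
  | .le s t => s.Occ i ∨ t.Occ i
  | .imp φ ψ => φ.Free i ∨ ψ.Free i
  | .all j φ => i ≠ j ∧ φ.Free i

/-- replace the variable `x_i` in a term by `r` -/
def Tm.sub : Tm → ℕ → Tm → Tm
  | .var j, i, r => if j = i then r else .var j
  | .zero, _, _ => .zero
  | .suc t, i, r => .suc (t.sub i r)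
  | .add s t, i, r => .add (s.sub i r) (t.sub i r)
  | .mul s t, i, r => .mul (s.sub i r) (t.sub i r)
  | .smash s t, i, r => .smash (s.sub i r) (t.sub i r)
  | .len t, i, r => .len (t.sub i r)
  | .half t, i, r => .half (t.sub i r)

/-- negation -/
def Fm.neg (φ : Fm) : Fm := .imp φ .bot

/-- conjunction -/
def Fm.and (φ ψ : Fm) : Fm := .neg (.imp φ (.neg ψ))

/-- disjunction -/
def Fm.or (φ ψ : Fm) : Fm := .imp (.neg φ) ψ

/-- equivalence -/
def Fm.iff (φ ψ : Fm) : Fm := .and (.imp φ ψ) (.imp ψ φ)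

/-- `∃ x_i ≤ t, φ` -/
def Fm.exLe (i : ℕ) (t : Tm) (φ : Fm) : Fm := .neg (.all i (.imp (.le (.var i) t) (.neg φ)))

/-! ### Semantics -/

/-- structures for the language, with the universe `M` -/
structure Str (M : Type) where
  zero : M
  suc : M → M
  add : M → M → M
  mul : M → M → M
  smash : M → M → M
  len : M → M
  half : M → M
  le : M → M → Prop

/-- value of a term -/
def Tm.val {M : Type} (A : Str M) (v : ℕ → M) : Tm → M
  | .var i => v i
  | .zero => A.zero
  | .suc t => A.suc (t.val A v)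
  | .add s t => A.add (s.val A v) (t.val A v)
  | .mul s t => A.mul (s.val A v) (t.val A v)
  | .smash s t => A.smash (s.val A v) (t.val A v)
  | .len t => A.len (t.val A v)
  | .half t => A.half (t.val A v)

/-- truth of a formula under a valuation of the variables -/
def Fm.Sat {M : Type} (A : Str M) : Fm → (ℕ → M) → Prop
  | .bot, _ => False
  | .eq s t, v => s.val A v = t.val A v
  | .le s t, v => A.le (s.val A v) (t.val A v)
  | .imp φ ψ, v => φ.Sat A v → ψ.Sat A v
  | .all i φ, v => ∀ x : M, φ.Sat A (Function.update v i x)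

/-- `A` is a model of `T` -/
def Models {M : Type} (A : Str M) (T : Set Fm) : Prop := ∀ φ ∈ T, ∀ v, φ.Sat A v

/-- the standard model: `|x|` is the length of the binary representation, `x # y = 2 ^ (|x| |y|)` -/
def Nn : Str ℕ where
  zero := 0
  suc n := n + 1
  add m n := m + n
  mul m n := m * n
  smash m n := 2 ^ (m.size * n.size)
  len n := n.size
  half n := n / 2
  le m n := m ≤ n

/-! ### Proofs -/

/-- The logical axioms: a calculus without substitution (Tarski). -/
inductive Log : Fm → Prop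
  | k (φ ψ : Fm) : Log (.imp φ (.imp ψ φ))
  | s (φ ψ χ : Fm) : Log (.imp (.imp φ (.imp ψ χ)) (.imp (.imp φ ψ) (.imp φ χ)))
  | dn (φ : Fm) : Log (.imp (.neg (.neg φ)) φ)
  | spec (i : ℕ) (φ : Fm) : Log (.imp (.all i φ) φ)
  | dist (i : ℕ) (φ ψ : Fm) : Log (.imp (.all i (.imp φ ψ)) (.imp (.all i φ) (.all i ψ)))
  | vac (i : ℕ) (φ : Fm) : ¬ φ.Occ i → Log (.imp φ (.all i φ))
  | ex (i : ℕ) (t : Tm) : ¬ t.Occ i → Log (.neg (.all i (.neg (.eq (.var i) t))))
  | refl (t : Tm) : Log (.eq t t)
  | leibEq (i : ℕ) (s t a b : Tm) :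
      Log (.imp (.eq s t) (.imp (.eq (a.sub i s) (b.sub i s)) (.eq (a.sub i t) (b.sub i t))))
  | leibLe (i : ℕ) (s t a b : Tm) :
      Log (.imp (.eq s t) (.imp (.le (a.sub i s) (b.sub i s)) (.le (a.sub i t) (b.sub i t))))

/-- Proofs from `T` (the last formula comes first): each formula is in `T`, a logical axiom, or
follows from earlier ones by modus ponens or generalization. -/
def IsProof (T : Set Fm) : List Fm → Prop
  | [] => True
  | φ :: P => IsProof T P ∧
      (φ ∈ T ∨ Log φ ∨ (∃ ψ ∈ P, Fm.imp ψ φ ∈ P) ∨ ∃ (i : ℕ), ∃ ψ ∈ P, φ = .all i ψ)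

/-- `P` is a proof of `φ` from `T` -/
def ProofOf (T : Set Fm) (P : List Fm) (φ : Fm) : Prop := IsProof T P ∧ P.head? = some φ

/-- `φ` is provable from `T` -/
def Provable (T : Set Fm) (φ : Fm) : Prop := ∃ P, ProofOf T P φ

/-! ### The theory `S^1_2` -/

/-- the term `2` -/
def two : Tm := .suc (.suc .zero)

/-- the binary numeral of `n`: `0`, `2 * t`, `S (2 * t)` -/
def num (n : ℕ) : Tm :=
  n.bits.foldr (fun b t => if b then .suc (.mul two t) else .mul two t) .zero

section basic
open Tm Fm

/-- The axioms `BASIC` (Buss), with the variables `x = x_0`, `y = x_1`, `z = x_2`, `u = x_3`,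
`v = x_4`; here `1 = S 0`, `2 = S (S 0)`. -/
def basic : List Fm :=
  let x := Tm.var 0
  let y := Tm.var 1
  let z := Tm.var 2
  let u := Tm.var 3
  let v := Tm.var 4
  let one := Tm.suc .zero
  let d := fun t : Tm => Tm.mul two t
  [ .imp (.le y x) (.le y (.suc x)),
    .neg (.eq x (.suc x)),
    .le .zero x,
    .iff (.and (.le x y) (.neg (.eq x y))) (.le (.suc x) y),
    .imp (.neg (.eq x .zero)) (.neg (.eq (d x) .zero)),
    .or (.le y x) (.le x y),
    .imp (.and (.le x y) (.le y x)) (.eq x y),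
    .imp (.and (.le x y) (.le y z)) (.le x z),
    .eq (.len .zero) .zero,
    .imp (.neg (.eq x .zero)) (.and (.eq (.len (d x)) (.suc (.len x)))
      (.eq (.len (.suc (d x))) (.suc (.len x)))),
    .eq (.len one) one,
    .imp (.le x y) (.le (.len x) (.len y)),
    .eq (.len (.smash x y)) (.suc (.mul (.len x) (.len y))),
    .eq (.smash .zero y) one,
    .imp (.neg (.eq x .zero)) (.and (.eq (.smash one (d x)) (d (.smash one x)))
      (.eq (.smash one (.suc (d x))) (d (.smash one x)))),
    .eq (.smash x y) (.smash y x),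
    .imp (.eq (.len x) (.len y)) (.eq (.smash x z) (.smash y z)),
    .imp (.eq (.len x) (.add (.len u) (.len v)))
      (.eq (.smash x y) (.mul (.smash u y) (.smash v y))),
    .le x (.add x y),
    .imp (.and (.le x y) (.neg (.eq x y))) (.and (.le (.suc (d x)) (d y))
      (.neg (.eq (.suc (d x)) (d y)))),
    .eq (.add x y) (.add y x),
    .eq (.add x .zero) x,
    .eq (.add x (.suc y)) (.suc (.add x y)),
    .eq (.add (.add x y) z) (.add x (.add y z)),
    .iff (.le (.add x y) (.add x z)) (.le y z),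
    .eq (.mul x .zero) .zero,
    .eq (.mul x (.suc y)) (.add (.mul x y) x),
    .eq (.mul x y) (.mul y x),
    .eq (.mul x (.add y z)) (.add (.mul x y) (.mul x z)),
    .imp (.le one x) (.iff (.le (.mul x y) (.mul x z)) (.le y z)),
    .imp (.neg (.eq x .zero)) (.eq (.len x) (.suc (.len (.half x)))),
    .iff (.eq x (.half y)) (.or (.eq (d x) y) (.eq (.suc (d x)) y)) ]

end basic

/-- `Sb true φ`: `φ` is `Σ^b_1`; `Sb false φ`: `φ` is `Π^b_1`. -/
inductive Sb : Bool → Fm → Prop
  | bot (b : Bool) : Sb b .bot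
  | eq (b : Bool) (s t : Tm) : Sb b (.eq s t)
  | le (b : Bool) (s t : Tm) : Sb b (.le s t)
  | imp (b : Bool) {φ ψ : Fm} : Sb (!b) φ → Sb b ψ → Sb b (.imp φ ψ)
  /-- sharply bounded quantifiers -/
  | sharp (b : Bool) (i : ℕ) (t : Tm) {φ : Fm} : ¬ t.Occ i → Sb b φ →
      Sb b (.all i (.imp (.le (.var i) (.len t)) φ))
  /-- bounded quantifiers -/
  | bdd (i : ℕ) (t : Tm) {φ : Fm} : ¬ t.Occ i → Sb false φ →
      Sb false (.all i (.imp (.le (.var i) t) φ))

/-- `φ (t)`, written `∀ x_i (x_i = t → φ)` (`x_i` not in `t`) -/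
def inst (i : ℕ) (t : Tm) (φ : Fm) : Fm := .all i (.imp (.eq (.var i) t) φ)

/-- The axiom `PIND` for `φ (x_i)`: `φ (0) → ∀ x_i (φ (⌊x_i/2⌋) → φ (x_i)) → ∀ x_i φ (x_i)`;
`φ (⌊x_i/2⌋)` is written with an auxiliary variable `x_j`. -/
def pind (i j : ℕ) (φ : Fm) : Fm :=
  .imp (inst i .zero φ) (.imp (.all i (.imp (inst j (.half (.var i)) (inst i (.var j) φ)) φ))
    (.all i φ))

/-- the axioms of `S^1_2` -/
def S12 : Set Fm :=
  {φ | φ ∈ basic ∨ ∃ (i j : ℕ) (ψ : Fm), i ≠ j ∧ ¬ ψ.Occ j ∧ Sb true ψ ∧ φ = pind i j ψ}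

/-- The class of theories: `S^1_2` with a set of axioms decidable in polynomial time, consistent (with
a model; by Gödel's completeness theorem no contradiction is provable). -/
def IsTh (T : Set Fm) : Prop :=
  ∃ A : Set Fm, InPP (fun φ => φ ∈ A) ∧ T = S12 ∪ A ∧ ∃ (M : Type) (B : Str M), Models B T

/-! ### The universal formula and the reflection sentences -/

/-- the term `c_0 + t (c_1 + t (c_2 + ⋯))`: a polynomial, given by its coefficients, at `t` -/
def pTm (p : List ℕ) (t : Tm) : Tm := p.foldr (fun c s => .add (num c) (.mul t s)) .zero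

/-- `μ (e, x, z)` (`e = x_0`, `x = x_1`, `z = x_2`) is a universal `Σ^b_1` formula: for all `Σ^b_1`
formulas `α (x)` there are `e` and a polynomial `p` such that `S^1_2` proves
`|z| ≥ p (|x|) → (α (x) ↔ μ (e, x, z))`. -/
structure Univ (μ : Fm) : Prop where
  sb : Sb true μ
  free : ∀ i, μ.Free i → i < 3
  univ : ∀ α : Fm, Sb true α → (∀ i, α.Free i → i = 1) → ∃ (e : ℕ) (p : List ℕ),
    Provable S12 (.imp (.le (pTm p (.len (.var 1))) (.len (.var 2))) (.iff α (inst 0 (num e) μ)))

/-- the sentence `μ (e, x, z)` with numerals -/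
def muAt (μ : Fm) (e x z : ℕ) : Fm := inst 0 (num e) (inst 1 (num x) (inst 2 (num z) μ))

/-- the number of a bit string: its binary digits are the bits of `w` and a leading `1` -/
def gn (w : List Bool) : ℕ := valB (w ++ [true])

/-- `Prov (e, x, z, u)` (`u = x_3`) is a `Σ^b_1` formula which says that `u` is a `T`-proof of
`μ (e, x, z)`. -/
structure IsProv (μ : Fm) (T : Set Fm) (Prov : Fm) : Prop where
  sb : Sb true Prov
  free : ∀ i, Prov.Free i → i < 4
  iff : ∀ v : ℕ → ℕ, Prov.Sat Nn v ↔
    ∃ P, gn (bits P) = v 3 ∧ ProofOf T P (muAt μ (v 0) (v 1) (v 2))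

/-- The sentence `Σ^b_1RFN_T (n)`: for all `e, x, z, u` of length at most `n`, if `u` is a `T`-proof of
`μ (e, x, z)` then `μ (e, x, z)`. -/
def RFN (μ Prov : Fm) (n : ℕ) : Fm :=
  .all 0 (.all 1 (.all 2 (.all 3 (.imp (.le (.len (.var 0)) (num n))
    (.imp (.le (.len (.var 1)) (num n)) (.imp (.le (.len (.var 2)) (num n))
    (.imp (.le (.len (.var 3)) (num n)) (.imp Prov μ))))))))

/-- `S`-proofs of the formulas `F n` can be constructed in time polynomial in `n`. -/
def Constructible (S : Set Fm) (F : ℕ → Fm) : Prop :=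
  ∃ f : List Bool → List Bool, PolyTime f ∧
    ∀ n : ℕ, ∃ P, f (List.replicate n true) = bits P ∧ ProofOf S P (F n)

/-- The statement of the problem, for the universal formula `μ`. -/
def Q1 (μ : Fm) : Prop :=
  ∀ S, IsTh S → ∃ T Prov, IsTh T ∧ IsProv μ T Prov ∧ ¬ Constructible S (RFN μ Prov)

/-! ### Complexity classes -/

/-- the class `Π_2^P` -/
def InPi2 (L : Set (List Bool)) : Prop :=
  ∃ (V : List Bool → List Bool) (p : Polynomial ℕ), PolyTime V ∧
    ∀ x, x ∈ L ↔ ∀ y : List Bool, y.length ≤ p.eval x.length →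
      ∃ z : List Bool, z.length ≤ p.eval x.length ∧ V (pairBits x (pairBits y z)) = [true]

/-- the class `Σ_2^P` -/
def InSigma2 (L : Set (List Bool)) : Prop := InPi2 Lᶜ

/-- hardness for `Π_2^P` under polynomial-time many-one reductions -/
def Pi2Hard (L : Set (List Bool)) : Prop := ∀ L', InPi2 L' → Reduces L' L

/-- a proof system for `L`: a polynomial-time function from bit strings onto `L` -/
def ProofSystem (L : Set (List Bool)) (h : List Bool → List Bool) : Prop :=
  PolyTime h ∧ Set.range h = L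

/-- `h` is a p-optimal proof system for `L` -/
def POptimal (L : Set (List Bool)) (h : List Bool → List Bool) : Prop :=
  ProofSystem L h ∧ ∀ h', ProofSystem L h' → ∃ g, PolyTime g ∧ ∀ w, h (g w) = h' w

/-- sets of strings of ones -/
def Tally (L : Set (List Bool)) : Prop := ∀ x ∈ L, ∃ n, x = List.replicate n true

/-- The theorem. -/
def MAIN : Prop := ∀ μ : Fm, Univ μ → Q1 μ →
  (∀ L, Pi2Hard L → ¬ ∃ h, POptimal L h) ∧ ∃ L, Tally L ∧ InSigma2 L ∧ ¬ InP L

end Pool.Agent.J6H50.RF
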