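import Pool.Agent.J6H50.RF.Defs

/-!
# The levels of the polynomial hierarchy: definition
-/

set_option autoImplicit false

namespace Pool.Agent.J6H50.RF

open Pool.Agent.NPC

/-- the classes `Σ_k^P`: `Σ_0^P = P`, and `L ∈ Σ_(k+1)^P` if `x ∈ L` is equivalent to `(x, y) ∈ L'` for
some `y` with `|y| ≤ p (|x|)`, where `L' ∈ Π_k^P` (that is, the complement of `L'` is in `Σ_k^P`) -/
def SigmaP : ℕ → Set (List Bool) → Prop
  | 0, L => InP L
  | k + 1, L => ∃ (L' : Set (List Bool)) (p : Polynomial ℕ), SigmaP k L'ᶜ ∧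
      ∀ x, x ∈ L ↔ ∃ y : List Bool, y.length ≤ p.eval x.length ∧ pairBits x y ∈ L'

/-- the classes `Π_k^P` -/
def PiP (k : ℕ) (L : Set (List Bool)) : Prop := SigmaP k Lᶜ

/-- hardness for `Σ_k^P` under polynomial-time many-one reductions -/
def SigmaHard (k : ℕ) (A : Set (List Bool)) : Prop := ∀ L, SigmaP k L → Reduces L A

end Pool.Agent.J6H50.RF
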