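import Pool.Agent.J6H50.RF.Closure
import Pool.Agent.J6H50.RF.LevelDefs

/-!
# P-optimal proof systems at the levels of the polynomial hierarchy
-/

set_option autoImplicit false

namespace Pool.Agent.J6H50.RF.PP

open Pool.Agent.J6H50.RF Pool.Agent.NPC
open Pool.Agent.H660R2.NX (U poly_U U_complete)

/-- the length of the value of a polynomial-time function -/
theorem len_poly {f : List Bool → List Bool} (hf : Poly f) :
    ∃ P : Polynomial ℕ, ∀ u : List Bool, (f u).length ≤ P.eval u.length := by
  obtain ⟨P, hP⟩ := NPC.Poly.sz_le hf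
  refine ⟨P.comp (4 * Polynomial.X + 1), fun u => ?_⟩
  rw [Polynomial.eval_comp]
  have h1 : sz (f u) ≤ P.eval (sz u) := hP u
  have h2 : P.eval (sz u) ≤ P.eval (Polynomial.eval u.length (4 * Polynomial.X + 1)) := by
    apply eval_mono
    simp only [Polynomial.eval_add, Polynomial.eval_mul, Polynomial.eval_ofNat,
      Polynomial.eval_one, Polynomial.eval_X]
    exact sz_listBool_le u
  have h3 := length_lt_sz (f u)
  omega

theorem poly_fst_unpair : Poly (fun v : List Bool => (unpair v).1) := NPC.Poly.fst poly_unpair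
theorem poly_snd_unpair : Poly (fun v : List Bool => (unpair v).2) := NPC.Poly.snd poly_unpair

/-- closure of the levels under reductions and tests -/
theorem sigma_closed : ∀ (k : ℕ) (S : Set (List Bool)), SigmaP k S →
    ∀ (f : List Bool → List Bool) (c : List Bool → Bool), Poly f → Poly c →
    SigmaP k {w | c w = true ∧ f w ∈ S} ∧ SigmaP k {w | c w = true ∨ f w ∈ S} := by
  intro k
  induction k with
  | zero =>
    intro S hS f c hf hc
    obtain ⟨V, hV, hSV⟩ := hS
    have hVp : Poly V := J6H50.RF14.m14.1 V hV
    have h1 : Poly (fun w => decide (V (f w) = [true])) :=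
      NPC.Poly.decide_eq (hVp.comp hf) (NPC.Poly.const _)
    refine ⟨⟨fun w => [c w && decide (V (f w) = [true])], polyTime_of_poly (NPC.Poly.and hc h1),
      fun x => ?_⟩, ⟨fun w => [c w || decide (V (f w) = [true])],
      polyTime_of_poly (NPC.Poly.or hc h1), fun x => ?_⟩⟩
    · rw [Set.mem_ofPred_eq, hSV]
      simp
    · rw [Set.mem_ofPred_eq, hSV]
      simp
  | succ k ih =>
    intro S hS f c hf hc
    obtain ⟨S', p, hS', hSp⟩ := hS
    obtain ⟨r, hr⟩ := len_poly hf
    have e1 := poly_fst_unpair
    have e2 := poly_snd_unpair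
    have ef : Poly (fun v : List Bool => f (unpair v).1) := hf.comp e1
    have eg : Poly (fun v : List Bool => pairBits (f (unpair v).1) (unpair v).2) :=
      poly_pairBits ef e2
    have el : Poly (fun v : List Bool =>
        decide ((unpair v).2.length ≤ p.eval (f (unpair v).1).length)) := poly_le p e2 ef
    have ec : Poly (fun v : List Bool => c (unpair v).1) := hc.comp e1
    constructor
    · refine ⟨{v | (c (unpair v).1 = true ∧
          (unpair v).2.length ≤ p.eval (f (unpair v).1).length) ∧
          pairBits (f (unpair v).1) (unpair v).2 ∈ S'}, p.comp r, ?_, fun x => ?_⟩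
      · have h := (ih S'ᶜ hS' (fun v => pairBits (f (unpair v).1) (unpair v).2)
          (fun v => !(c (unpair v).1 && decide ((unpair v).2.length ≤
            p.eval (f (unpair v).1).length))) eg (NPC.Poly.not (NPC.Poly.and ec el))).2
        convert h using 1
        ext v
        simp only [Set.mem_compl_iff, Set.mem_ofPred_eq, Bool.not_eq_true', Bool.and_eq_false_iff,
          decide_eq_false_iff_not]
        by_cases h1 : c (unpair v).1 = true
        · simp only [h1, true_and, Bool.true_eq_false, false_or]
          tauto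
        · simp [h1]
      · rw [Set.mem_ofPred_eq, hSp]
        simp only [Set.mem_ofPred_eq, unpair_pairBits]
        constructor
        · rintro ⟨h1, y, hy, h2⟩
          refine ⟨y, ?_, ⟨h1, hy⟩, h2⟩
          rw [Polynomial.eval_comp]
          exact hy.trans (eval_mono p (hr x))
        · rintro ⟨y, _, ⟨h1, hy⟩, h2⟩
          exact ⟨h1, y, hy, h2⟩
    · refine ⟨{v | c (unpair v).1 = true ∨
          ((unpair v).2.length ≤ p.eval (f (unpair v).1).length ∧
          pairBits (f (unpair v).1) (unpair v).2 ∈ S')}, p.comp r, ?_, fun x => ?_⟩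
      · have h := (ih S'ᶜ hS' (fun v => pairBits (f (unpair v).1) (unpair v).2)
          (fun v => !(decide ((unpair v).2.length ≤
            p.eval (f (unpair v).1).length))) eg (NPC.Poly.not el)).2
        have h' := (ih _ h (fun v => v) (fun v => !(c (unpair v).1)) NPC.Poly.id
          (NPC.Poly.not ec)).1
        convert h' using 1
        ext v
        simp only [Set.mem_compl_iff, Set.mem_ofPred_eq, Bool.not_eq_true',
          decide_eq_false_iff_not]
        by_cases h1 : c (unpair v).1 = true
        · simp [h1]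
        · have h2 : c (unpair v).1 = false := by simpa using h1
          simp only [h2, Bool.false_eq_true, false_or, true_and]
          tauto
      · rw [Set.mem_ofPred_eq, hSp]
        simp only [Set.mem_ofPred_eq, unpair_pairBits]
        constructor
        · rintro (h1 | ⟨y, hy, h2⟩)
          · exact ⟨[], Nat.zero_le _, Or.inl h1⟩
          · refine ⟨y, ?_, Or.inr ⟨hy, h2⟩⟩
            rw [Polynomial.eval_comp]
            exact hy.trans (eval_mono p (hr x))
        · rintro ⟨y, _, h1 | ⟨hy, h2⟩⟩
          · exact Or.inl h1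
          · exact Or.inr ⟨y, hy, h2⟩

theorem sigma_pre {k : ℕ} {S : Set (List Bool)} (hS : SigmaP k S) {f : List Bool → List Bool}
    (hf : Poly f) : SigmaP k {w | f w ∈ S} := by
  have h := (sigma_closed k S hS f (fun _ => false) hf (NPC.Poly.const _)).2
  simpa using h

/-- `Σ_k^P ⊆ Π_(k+1)^P` -/
theorem sigma_sub_pi {k : ℕ} {L : Set (List Bool)} (h : SigmaP k L) : PiP (k + 1) L := by
  refine ⟨{v | (unpair v).1 ∈ L}ᶜ, 0, ?_, fun x => ?_⟩
  · rw [compl_compl]
    exact sigma_pre h poly_fst_unpair
  · simp only [Set.mem_compl_iff, Set.mem_ofPred_eq, unpair_pairBits]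
    constructor
    · intro hx
      exact ⟨[], Nat.zero_le _, hx⟩
    · rintro ⟨_, _, hx⟩
      exact hx

theorem inP_compl {L : Set (List Bool)} (h : InP L) : InP Lᶜ := by
  obtain ⟨V, hV, hL⟩ := h
  have hVp : Poly V := J6H50.RF14.m14.1 V hV
  refine ⟨fun x => [!decide (V x = [true])], polyTime_of_poly (NPC.Poly.not
    (NPC.Poly.decide_eq hVp (NPC.Poly.const _))), fun x => ?_⟩
  rw [Set.mem_compl_iff, hL]
  simp

/-- `Σ_k^P ⊆ Σ_(k+1)^P` -/
theorem sigma_mono : ∀ (k : ℕ) (L : Set (List Bool)), SigmaP k L → SigmaP (k + 1) L := by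
  intro k
  induction k with
  | zero =>
    intro L h
    have h' : SigmaP 0 Lᶜ := inP_compl h
    have := sigma_sub_pi h'
    unfold PiP at this
    rwa [compl_compl] at this
  | succ k ih =>
    rintro L ⟨L', p, hL', hL⟩
    exact ⟨L', p, ih _ hL', hL⟩

theorem sigma_of_inNP {L : Set (List Bool)} (h : InNP L) : SigmaP 1 L := by
  obtain ⟨V, p, hV, hL⟩ := h
  refine ⟨{v | V v = [true]}, p, inP_compl ⟨V, hV, fun x => Iff.rfl⟩, fun x => ?_⟩
  rw [hL x]
  rfl

theorem sigma_one_le {L : Set (List Bool)} (h : SigmaP 1 L) : ∀ k, SigmaP (k + 1) L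
  | 0 => h
  | k + 1 => sigma_mono _ _ (sigma_one_le h k)

/-- the universal set of the next level -/
def NX (A : Set (List Bool)) (a : (T × List Unit) × List Bool × List Unit × List Unit) : Prop :=
  ∃ y : List Bool, y.length ≤ a.2.2.1.length ∧
    ∃ r, U a.1 (pairBits a.2.1 y) a.2.2.2.length = some r ∧ r ∉ A

theorem exists_complete : ∀ k : ℕ, ∃ A, SigmaP k A ∧ SigmaHard k A := by
  intro k
  induction k with
  | zero =>
    refine ⟨{x | x = [true]}, ⟨fun x => x, polyTime_id, fun x => Iff.rfl⟩, ?_⟩
    rintro L ⟨V, hV, hL⟩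
    exact ⟨V, hV, hL⟩
  | succ k ih =>
    obtain ⟨A, hA, hAh⟩ := ih
    let o : List Bool → Option (List Bool) := fun v =>
      (unbits E (unpair v).1).elim none (fun a =>
        if (unpair v).2.length ≤ a.2.2.1.length then
          U a.1 (pairBits a.2.1 (unpair v).2) a.2.2.2.length else none)
    have ho : Poly o := by
      refine NPC.Poly.optElim (o := fun v : List Bool => unbits E (unpair v).1)
        (g := fun _ => none) (h := fun v a => if (unpair v).2.length ≤ a.2.2.1.length then
          U a.1 (pairBits a.2.1 (unpair v).2) a.2.2.2.length else none)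
        (poly_unbits.comp poly_fst_unpair) (NPC.Poly.const _) ?_
      have e2 : Poly (fun c : List Bool × E => (unpair c.1).2) :=
        poly_snd_unpair.comp (NPC.Poly.fst NPC.Poly.id)
      refine NPC.Poly.ite (NPC.Poly.decide_le (NPC.Poly.length e2) (by fun_prop)) ?_
        (NPC.Poly.const _)
      exact poly_U.comp (f := fun c : List Bool × E =>
        (c.2.1, pairBits c.2.2.1 (unpair c.1).2, c.2.2.2.2)) (NPC.Poly.pair (by fun_prop)
        (NPC.Poly.pair (poly_pairBits (by fun_prop) e2) (by fun_prop)))
    have hc : Poly (fun v => !((o v).isSome)) := NPC.Poly.not (NPC.Poly.isSome ho)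
    have hg : Poly (fun v => (o v).getD []) := NPC.Poly.optGetD ho (NPC.Poly.const _)
    refine ⟨lang (NX A), ?_, ?_⟩
    · refine ⟨{v | (!((o v).isSome)) = true ∨ (o v).getD [] ∈ A}ᶜ, Polynomial.X, ?_, fun w => ?_⟩
      · rw [compl_compl]
        exact (sigma_closed k A hA _ _ hg hc).2
      · rw [mem_lang_iff]
        simp only [Set.mem_compl_iff, Set.mem_ofPred_eq, Polynomial.eval_X, o, unpair_pairBits]
        rcases hw : unbits E w with _ | a
        · simp
        · simp only [Option.some.injEq, exists_eq_left', Option.elim_some]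
          have hwl : a.2.2.1.length ≤ w.length := by
            rw [← bits_of_unbits hw, bits_length]
            obtain ⟨a1, a2, a3, a4⟩ := a
            have := length_lt_sz a3
            simp only [sz_pair]
            omega
          unfold NX
          constructor
          · rintro ⟨y, hy, r, hr, hrA⟩
            refine ⟨y, hy.trans hwl, ?_⟩
            simp [hy, hr, hrA]
          · rintro ⟨y, _, h2⟩
            by_cases hy : y.length ≤ a.2.2.1.length
            · rcases hr : U a.1 (pairBits a.2.1 y) a.2.2.2.length with _ | r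
              · simp [hy, hr] at h2
              · refine ⟨y, hy, r, hr, ?_⟩
                simpa [hy, hr] using h2
            · simp [hy] at h2
    · rintro L ⟨L', p, hL', hL⟩
      obtain ⟨f, hf, hfA⟩ := hAh _ hL'
      obtain ⟨e, q, he⟩ := U_complete hf
      have u0 : UPoly (fun x : List Bool => x.length) := UPoly.length NPC.Poly.id
      have u1 : UPoly (fun x : List Bool => p.eval x.length) := u0.eval p
      have u2 : UPoly (fun x : List Bool => q.eval (2 * x.length + 1 + p.eval x.length)) :=
        (UPoly.add (UPoly.add (UPoly.mul (UPoly.const 2) u0) (UPoly.const 1)) u1).eval q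
      refine ⟨fun x => bits (((e, x, List.replicate (p.eval x.length) (),
        List.replicate (q.eval (2 * x.length + 1 + p.eval x.length)) ()) : E)),
        J6H50.RF14.m14.2 _ (poly_bits (NPC.Poly.pair (NPC.Poly.const e)
          (NPC.Poly.pair NPC.Poly.id (NPC.Poly.pair u1 u2)))), fun x => ?_⟩
      rw [bits_mem_lang, hL x]
      unfold NX
      simp only [List.length_replicate]
      refine exists_congr fun y => and_congr_right fun hy => ?_
      rw [he _ _ (by rw [length_pairBits]; exact eval_mono q (by omega))]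
      have h3 := hfA (pairBits x y)
      rw [Set.mem_compl_iff] at h3
      simp only [Option.some.injEq, exists_eq_left']
      rw [← h3, not_not]

theorem inNP_of_sigma {L : Set (List Bool)} (h : SigmaP 1 L) : InNP L := by
  obtain ⟨L', p, hL', hL⟩ := h
  have hL'' : InP L' := by
    have := inP_compl hL'
    rwa [compl_compl] at this
  obtain ⟨V, hV, hLV⟩ := hL''
  refine ⟨V, p, hV, fun x => ?_⟩
  rw [hL x]
  simp only [hLV]

/-- **Upward translation.** -/
theorem levels (k : ℕ) : ((∃ A h, SigmaHard k A ∧ POptimal A h) ∧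
    (∃ B h, CoNPHard B ∧ POptimal B h)) ↔
    ∀ L, PiP (k + 1) L → L.Nonempty → ∃ h, POptimal L h := by
  constructor
  · rintro ⟨⟨A, h2, hA, h2A⟩, ⟨B, h1, hB, h1B⟩⟩ L ⟨L', p, hL', hL⟩ hne
    obtain ⟨f, hf, hfA⟩ := hA _ hL'
    refine closure hB h2A h1B hf p (fun x => ?_) hne
    have h1 : x ∈ L ↔ ¬ x ∈ Lᶜ := by simp
    rw [h1, hL x]
    push Not
    refine forall_congr' fun y => forall_congr' fun _ => ?_
    rw [← hfA]
    rfl
  · intro h
    obtain ⟨A, hA, hAh⟩ := exists_complete k
    have hAne : A.Nonempty := by
      have h0 : ∀ k, SigmaP k (Set.univ : Set (List Bool)) := by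
        intro k
        induction k with
        | zero => exact ⟨fun _ => [true], polyTime_of_poly (g := fun _ => true)
            (NPC.Poly.const true), fun x => ⟨fun _ => rfl, fun _ => trivial⟩⟩
        | succ k ih => exact sigma_mono _ _ ih
      obtain ⟨f, _, hf⟩ := hAh _ (h0 k)
      exact ⟨f [], (hf []).1 trivial⟩
    obtain ⟨h2, hh2⟩ := h A (sigma_sub_pi hA) hAne
    have hB : PiP (k + 1) (lang PC') := by
      unfold PiP
      exact sigma_one_le (sigma_of_inNP inCoNPP_PC) k
    obtain ⟨h1, hh1⟩ := h _ hB (CoNPHard.nonempty coNPHard_PC)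
    exact ⟨⟨A, h2, hAh, hh2⟩, ⟨_, h1, coNPHard_PC, hh1⟩⟩

/-- `Π_2^P` of the hierarchy -/
theorem pi2_iff (L : Set (List Bool)) : InPi2 L ↔ PiP 2 L := by
  constructor
  · rintro ⟨V, p, hV, hL⟩
    refine ⟨(LA V p)ᶜ, p, ?_, fun x => ?_⟩
    · rw [compl_compl]
      exact sigma_of_inNP (inNP_LA (J6H50.RF14.m14.1 V hV) p)
    · rw [Set.mem_compl_iff, hL x]
      push Not
      refine exists_congr fun y => and_congr_right fun _ => ?_
      unfold LA
      rw [Set.mem_compl_iff, Set.mem_ofPred_eq, unpair_pairBits]
      push Not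
      rfl
  · rintro ⟨L', p, hL', hL⟩
    obtain ⟨V, q, hV, hLV⟩ := inNP_of_sigma hL'
    have hVp : Poly V := J6H50.RF14.m14.1 V hV
    -- bounds: `y` of length at most `p |x|`, `z` of length at most `q |(x, y)|`
    have e1 := poly_fst_unpair
    have e2 : Poly (fun w : List Bool => (unpair (unpair w).2).1) :=
      NPC.Poly.fst (poly_unpair.comp poly_snd_unpair)
    have e3 : Poly (fun w : List Bool => (unpair (unpair w).2).2) :=
      NPC.Poly.snd (poly_unpair.comp poly_snd_unpair)
    have e4 : Poly (fun w : List Bool => pairBits (unpair w).1 (unpair (unpair w).2).1) :=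
      poly_pairBits e1 e2
    refine ⟨fun w => [!(decide ((unpair (unpair w).2).1.length ≤ p.eval (unpair w).1.length)) ||
      (decide ((unpair (unpair w).2).2.length ≤
        q.eval (pairBits (unpair w).1 (unpair (unpair w).2).1).length) &&
      decide (V (pairBits (pairBits (unpair w).1 (unpair (unpair w).2).1)
        (unpair (unpair w).2).2) = [true]))], p + q.comp (2 * Polynomial.X + 1 + p),
      polyTime_of_poly (NPC.Poly.or (NPC.Poly.not (poly_le p e2 e1)) (NPC.Poly.and
        (poly_le q e3 e4) (NPC.Poly.decide_eq (hVp.comp (poly_pairBits e4 e3))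
          (NPC.Poly.const _)))), fun x => ?_⟩
    have h1 : x ∈ L ↔ ¬ x ∈ Lᶜ := by simp
    rw [h1, hL x]
    push Not
    simp only [unpair_pairBits, Polynomial.eval_add, Polynomial.eval_comp, Polynomial.eval_mul,
      Polynomial.eval_X, Polynomial.eval_ofNat, Polynomial.eval_one]
    constructor
    · intro h y _
      by_cases hy : y.length ≤ p.eval x.length
      · have h2 : pairBits x y ∈ L'ᶜ := h y hy
        rw [hLV] at h2
        obtain ⟨z, hz, hVz⟩ := h2
        refine ⟨z, ?_, ?_⟩
        · have h3 : q.eval (pairBits x y).length ≤ q.eval (2 * x.length + 1 + p.eval x.length) := by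
            apply eval_mono
            rw [length_pairBits]
            omega
          omega
        · simp [hz, hVz]
      · exact ⟨[], Nat.zero_le _, by simp [hy]⟩
    · intro h y hy
      obtain ⟨z, _, hz⟩ := h y (by omega)
      simp only [hy, decide_true, Bool.not_true, Bool.false_or, List.cons.injEq, and_true,
        Bool.and_eq_true, decide_eq_true_eq] at hz
      have h2 : pairBits x y ∈ L'ᶜ := (hLV _).2 ⟨z, hz.1, hz.2⟩
      exact h2

end Pool.Agent.J6H50.RF.PP
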