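import Pool.Agent.J6H50.RF.LevelDefs

/-!
# Disjoint `Σ_2^P` pairs: definitions
-/

set_option autoImplicit false

namespace Pool.Agent.J6H50.RF

open Pool.Agent.NPC

/-- disjoint pairs of sets in `Σ_2^P` -/
def DisjSigma2 (A B : Set (List Bool)) : Prop := SigmaP 2 A ∧ SigmaP 2 B ∧ A ∩ B = ∅

/-- `(A, B)` is a complete disjoint `Σ_2^P` pair: every disjoint `Σ_2^P` pair `(A', B')` is reducible
to `(A, B)` by a polynomial-time function `f` with `f (A') ⊆ A` and `f (B') ⊆ B` -/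
def CompletePair (A B : Set (List Bool)) : Prop := DisjSigma2 A B ∧
  ∀ A' B', DisjSigma2 A' B' → ∃ f, PolyTime f ∧ (∀ x ∈ A', f x ∈ A) ∧ ∀ x ∈ B', f x ∈ B

end Pool.Agent.J6H50.RF
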