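import Pool.Agent.J6H50.RF.Levels
import Pool.Agent.J6H1.RF.M20
import Pool.Agent.J6H50.RF.PairDefs

/-!
# Complete disjoint `Σ_2^P` pairs
-/

set_option autoImplicit false

namespace Pool.Agent.J6H50.RF.PP

open Pool.Agent.J6H50.RF Pool.Agent.NPC
open Pool.Agent.H660R2.NX (U poly_U U_complete)
open TDec (dec dec_toT toT_dec poly_dec)

theorem pi2_lang {α β γ : Type} [TEnc α] [TDec α] [TEnc β] [TDec β] [TEnc γ] [TDec γ] (b : Bool)
    {P : α → Prop} {S : α × β × γ → Bool} (hS : Poly S) (q : Polynomial ℕ)
    (hq : ∀ n, 1 ≤ q.eval n)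
    (h : ∀ a, P a ↔ ∀ y : β, sz y ≤ q.eval (sz a) →
      ∃ z : γ, sz z ≤ q.eval (sz a) ∧ S (a, y, z) = true) :
    InPi2 {x | (unbits α x).elim (b = true) P} := by
  have h1 : Poly (fun t : T => (dec t : Option β)) := poly_dec
  have h2 : Poly (fun t : T => (dec t : Option γ)) := poly_dec
  refine J6H1.RF20.m20 (fun w => (unbits α w.1).elim b (fun a => (dec w.2.1 : Option β).elim true
    (fun y => (dec w.2.2 : Option γ).elim false (fun z => S (a, y, z))))) q ?_ _ ?_
  · refine NPC.Poly.optElim (o := fun w : List Bool × T × T => unbits α w.1) (g := fun _ => b)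
      (h := fun w a => (dec w.2.1 : Option β).elim true
        (fun y => (dec w.2.2 : Option γ).elim false (fun z => S (a, y, z))))
      (poly_unbits.comp (NPC.Poly.fst NPC.Poly.id)) (NPC.Poly.const _) ?_
    refine NPC.Poly.optElim (o := fun w : (List Bool × T × T) × α => (dec w.1.2.1 : Option β))
      (g := fun _ => true)
      (h := fun w y => (dec w.1.2.2 : Option γ).elim false (fun z => S (w.2, y, z)))
      (h1.comp (by fun_prop)) (NPC.Poly.const _) ?_
    refine NPC.Poly.optElim (o := fun w : ((List Bool × T × T) × α) × β =>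
        (dec w.1.1.2.2 : Option γ))
      (g := fun _ => false) (h := fun w z => S (w.1.2, w.2, z))
      (h2.comp (by fun_prop)) (NPC.Poly.const _) ?_
    exact hS.comp (f := fun w : (((List Bool × T × T) × α) × β) × γ => (w.1.1.2, w.1.2, w.2))
      (by fun_prop)
  · intro x
    rw [Set.mem_ofPred_eq]
    rcases hx : unbits α x with _ | a
    · simp only [Option.elim_none]
      constructor
      · intro hb y _
        exact ⟨T.nil, hq _, by simpa only [hx, Option.elim_none] using hb⟩
      · intro hb
        obtain ⟨_, _, hz⟩ := hb T.nil (hq _)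
        simpa only [hx, Option.elim_none] using hz
    · simp only [Option.elim_some]
      have hxa : x.length = sz a := by
        rw [← bits_of_unbits hx, bits_length]
      rw [h a, hxa]
      simp only [hx, Option.elim_some]
      constructor
      · intro h3 t ht
        rcases hd : (dec t : Option β) with _ | y
        · exact ⟨T.nil, hq _, rfl⟩
        · have e1 := toT_dec _ _ hd
          have e2 : sz y = sz t := by
            change (toT y).size = t.size
            rw [e1]
          obtain ⟨z, hz, hS'⟩ := h3 y (by rw [e2]; exact ht)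
          refine ⟨toT z, hz, ?_⟩
          simp only [Option.elim_some, dec_toT]
          exact hS'
      · intro h3 y hy
        obtain ⟨t, ht, hS'⟩ := h3 (toT y) hy
        simp only [dec_toT, Option.elim_some] at hS'
        rcases hd : (dec t : Option γ) with _ | z
        · rw [hd] at hS'
          simp at hS'
        · rw [hd] at hS'
          have e1 := toT_dec _ _ hd
          refine ⟨z, ?_, hS'⟩
          have e2 : sz z = sz t := by
            change (toT z).size = t.size
            rw [e1]
          rw [e2]
          exact ht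

/-- a machine and the bound of its quantifiers -/
abbrev M : Type := (T × List Unit) × List Unit

/-- two machines and a bound for the time -/
abbrev K : Type := M × M × List Unit

/-- the machine accepts -/
def ac (e : M) (s : List Unit) (x y z : List Bool) : Bool :=
  decide (z.length ≤ e.2.length) &&
    decide (U e.1 (pairBits x (pairBits y z)) s.length = some [true])

/-- membership in the set given by the machine -/
def mm (e : M) (s : List Unit) (x : List Bool) : Prop :=
  ∃ y : List Bool, y.length ≤ e.2.length ∧ ∀ z : List Bool, ac e s x y z = false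

theorem poly_ac {α : Type} [TEnc α] {e : α → M} {s : α → List Unit} {x y z : α → List Bool}
    (he : Poly e) (hs : Poly s) (hx : Poly x) (hy : Poly y) (hz : Poly z) :
    Poly (fun a => ac (e a) (s a) (x a) (y a) (z a)) := by
  unfold ac
  refine NPC.Poly.and (by fun_prop) (NPC.Poly.decide_eq ?_ (NPC.Poly.const _))
  exact poly_U.comp (f := fun a => ((e a).1, pairBits (x a) (pairBits (y a) (z a)), s a))
    (NPC.Poly.pair (by fun_prop) (NPC.Poly.pair (poly_pairBits hx (poly_pairBits hy hz)) hs))

theorem ac_len {e : M} {s : List Unit} {x y z : List Bool} (h : ac e s x y z = true) :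
    z.length ≤ e.2.length := by
  unfold ac at h
  simp only [Bool.and_eq_true, decide_eq_true_eq] at h
  exact h.1

/-- the sets are disjoint on the strings of a given length -/
def TD (a : K × List Unit) : Prop := ∀ x : List Bool, x.length = a.2.length →
  ¬ (mm a.1.1 a.1.2.2 x ∧ mm a.1.2.1 a.1.2.2 x)

theorem len1 (a : K × List Unit) : a.1.1.2.length ≤ sz a ∧ a.1.2.1.2.length ≤ sz a ∧
    a.2.length ≤ sz a := by
  obtain ⟨⟨⟨e1, m1⟩, ⟨e2, m2⟩, s⟩, n⟩ := a
  have h1 := length_lt_sz m1
  have h2 := length_lt_sz m2
  have h3 := length_lt_sz n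
  simp only [sz_pair]
  refine ⟨?_, ?_, ?_⟩ <;> omega

theorem pi2_TD : InPi2 (lang TD) := by
  have h := pi2_lang (α := K × List Unit) (β := List Bool × List Bool × List Bool)
    (γ := List Bool) false (P := TD)
    (S := fun c => !(decide (c.2.1.1.length = c.1.2.length) &&
      (decide (c.2.1.2.1.length ≤ c.1.1.1.2.length) &&
      decide (c.2.1.2.2.length ≤ c.1.1.2.1.2.length))) ||
      (ac c.1.1.1 c.1.1.2.2 c.2.1.1 c.2.1.2.1 c.2.2 ||
      ac c.1.1.2.1 c.1.1.2.2 c.2.1.1 c.2.1.2.2 c.2.2)) ?_ (12 * Polynomial.X + 5) ?_ ?_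
  · convert h using 1
    ext x
    rw [mem_lang_iff, Set.mem_ofPred_eq]
    rcases unbits (K × List Unit) x with _ | a
    · simp
    · simp
  · refine NPC.Poly.or (NPC.Poly.not (by fun_prop)) (NPC.Poly.or ?_ ?_)
    · exact poly_ac (by fun_prop) (by fun_prop) (by fun_prop) (by fun_prop) (by fun_prop)
    · exact poly_ac (by fun_prop) (by fun_prop) (by fun_prop) (by fun_prop) (by fun_prop)
  · intro n
    simp only [Polynomial.eval_add, Polynomial.eval_mul, Polynomial.eval_ofNat,
      Polynomial.eval_X]
    omega
  · intro a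
    obtain ⟨l1, l2, l3⟩ := len1 a
    simp only [Polynomial.eval_add, Polynomial.eval_mul, Polynomial.eval_ofNat,
      Polynomial.eval_X]
    constructor
    · rintro h ⟨x, y1, y2⟩ _
      by_cases hg : x.length = a.2.length ∧ y1.length ≤ a.1.1.2.length ∧
          y2.length ≤ a.1.2.1.2.length
      · by_contra hno
        push Not at hno
        refine h x hg.1 ⟨⟨y1, hg.2.1, fun z => ?_⟩, ⟨y2, hg.2.2, fun z => ?_⟩⟩
        · by_contra hz
          rw [Bool.not_eq_false] at hz
          have h1 := ac_len hz
          have h2 := sz_listBool_le z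
          refine hno z (by omega) ?_
          simp [hz]
        · by_contra hz
          rw [Bool.not_eq_false] at hz
          have h1 := ac_len hz
          have h2 := sz_listBool_le z
          refine hno z (by omega) ?_
          simp [hz]
      · refine ⟨[], by rw [sz_list_nil]; omega, ?_⟩
        have h3 : (decide (x.length = a.2.length) && (decide (y1.length ≤ a.1.1.2.length) &&
            decide (y2.length ≤ a.1.2.1.2.length))) = false := by
          rw [Bool.eq_false_iff]
          intro h4
          simp only [Bool.and_eq_true, decide_eq_true_eq] at h4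
          exact hg h4
        simp only [h3, Bool.not_false, Bool.true_or]
    · rintro h x hx ⟨⟨y1, hy1, h1⟩, ⟨y2, hy2, h2⟩⟩
      have s1 := sz_listBool_le x
      have s2 := sz_listBool_le y1
      have s3 := sz_listBool_le y2
      obtain ⟨z, _, hz⟩ := h (x, y1, y2) (by simp only [sz_pair]; omega)
      simp [hx, hy1, hy2, h1 z, h2 z] at hz

/-- the sets of the complete pair -/
def PS (h : List Bool → List Bool) (sel : K → M) (c : List Bool × K × List Bool) : Prop :=
  h c.2.2 = bits (c.2.1, c.1.map (fun _ => ())) ∧ mm (sel c.2.1) c.2.1.2.2 c.1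

theorem sigma2_PS {h : List Bool → List Bool} (hh : Poly h) {sel : K → M} (hs : Poly sel)
    (hl : ∀ k, (sel k).2.length ≤ sz k) : InSigma2 (lang (PS h sel)) := by
  classical
  unfold InSigma2
  have h := pi2_lang (α := List Bool × K × List Bool) (β := List Bool)
    (γ := List Bool) true (P := fun c => ¬ PS h sel c)
    (S := fun c => !(decide (h c.1.2.2 = bits (c.1.2.1, c.1.1.map (fun _ => ()))) &&
      decide (c.2.1.length ≤ (sel c.1.2.1).2.length)) ||
      ac (sel c.1.2.1) c.1.2.1.2.2 c.1.1 c.2.1 c.2.2) ?_ (4 * Polynomial.X + 1) ?_ ?_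
  · convert h using 1
    ext x
    rw [Set.mem_compl_iff, mem_lang_iff, Set.mem_ofPred_eq]
    rcases unbits (List Bool × K × List Bool) x with _ | a
    · simp
    · simp
  · refine NPC.Poly.or (NPC.Poly.not (NPC.Poly.and (NPC.Poly.decide_eq (hh.comp (by fun_prop))
      (poly_bits (by fun_prop))) ?_)) ?_
    · have : Poly (fun c : (List Bool × K × List Bool) × List Bool × List Bool =>
          (sel c.1.2.1).2.length) := NPC.Poly.length (NPC.Poly.snd (hs.comp (by fun_prop)))
      exact NPC.Poly.decide_le (by fun_prop) this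
    · exact poly_ac (hs.comp (by fun_prop)) (by fun_prop) (by fun_prop) (by fun_prop)
        (by fun_prop)
  · intro n
    simp only [Polynomial.eval_add, Polynomial.eval_mul, Polynomial.eval_ofNat,
      Polynomial.eval_X, Polynomial.eval_one]
    omega
  · intro c
    have hb : (sel c.2.1).2.length ≤ sz c := by
      obtain ⟨x, k, π⟩ := c
      have := hl k
      simp only [sz_pair]
      omega
    simp only [Polynomial.eval_add, Polynomial.eval_mul, Polynomial.eval_ofNat,
      Polynomial.eval_X, Polynomial.eval_one]
    constructor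
    · rintro hn y _
      by_cases hg : h c.2.2 = bits (c.2.1, c.1.map (fun _ => ())) ∧
          y.length ≤ (sel c.2.1).2.length
      · by_contra hno
        push Not at hno
        refine hn ⟨hg.1, y, hg.2, fun z => ?_⟩
        by_contra hz
        rw [Bool.not_eq_false] at hz
        have h1 := ac_len hz
        have h2 := sz_listBool_le z
        refine hno z (by omega) ?_
        simp [hz]
      · refine ⟨[], by rw [sz_list_nil]; omega, ?_⟩
        have h3 : (decide (h c.2.2 = bits (c.2.1, c.1.map (fun _ => ()))) &&
            decide (y.length ≤ (sel c.2.1).2.length)) = false := by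
          rw [Bool.eq_false_iff]
          intro h4
          simp only [Bool.and_eq_true, decide_eq_true_eq] at h4
          exact hg h4
        simp only [h3, Bool.not_false, Bool.true_or]
    · rintro hn ⟨h0, y, hy, h1⟩
      have s2 := sz_listBool_le y
      obtain ⟨z, _, hz⟩ := hn y (by omega)
      simp [h0, hy, h1 z] at hz

theorem sigma2_iff (A : Set (List Bool)) : InSigma2 A ↔ SigmaP 2 A := by
  unfold InSigma2
  rw [pi2_iff]
  unfold PiP
  rw [compl_compl]

/-- **Complete pairs.** -/
theorem complete_pair (hall : ∀ L, PiP 2 L → L.Nonempty → ∃ h, POptimal L h) :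
    ∃ A B, CompletePair A B := by
  have hraw := J6H50.RF14.m14
  have hne : (lang TD).Nonempty := by
    obtain ⟨e, q, he⟩ := U_complete (f := fun _ => [true])
      (polyTime_of_poly (g := fun _ => true) (NPC.Poly.const true))
    refine ⟨bits ((((e, []), (e, []), List.replicate (q.eval 2) ()), []) : K × List Unit),
      bits_mem_lang.2 ?_⟩
    rintro x hx ⟨⟨y, hy0, hy⟩, _⟩
    have h1 := hy []
    unfold ac at h1
    have e1 : U e (pairBits x (pairBits y [])) (q.eval 2) = some [true] := by
      apply he
      rw [length_pairBits, length_pairBits]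
      have hx0 : x.length = 0 := hx
      have hy1 : y.length ≤ 0 := hy0
      have hy2 : y.length = 0 := by omega
      rw [hx0, hy2]
      exact le_rfl
    simp [e1] at h1
  obtain ⟨h, hh⟩ := hall _ ((pi2_iff _).1 pi2_TD) hne
  have hhp : Poly h := hraw.1 _ hh.1.1
  refine ⟨lang (PS h fun k => k.1), lang (PS h fun k => k.2.1), ⟨?_, ?_, ?_⟩, ?_⟩
  · exact (sigma2_iff _).1 (sigma2_PS hhp (by fun_prop) (fun k => by
      obtain ⟨⟨e1, m1⟩, ⟨e2, m2⟩, s⟩ := k
      have h1 := length_lt_sz m1
      simp only [sz_pair]
      omega))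
  · exact (sigma2_iff _).1 (sigma2_PS hhp (by fun_prop) (fun k => by
      obtain ⟨⟨e1, m1⟩, ⟨e2, m2⟩, s⟩ := k
      have h1 := length_lt_sz m2
      simp only [sz_pair]
      omega))
  · rw [Set.eq_empty_iff_forall_notMem]
    rintro v ⟨⟨c, rfl, h1, h2⟩, hB⟩
    rw [bits_mem_lang] at hB
    obtain ⟨_, h3⟩ := hB
    have h4 : bits (c.2.1, c.1.map (fun _ => ())) ∈ lang TD := by
      rw [← h1, ← hh.1.2]
      exact ⟨_, rfl⟩
    rw [bits_mem_lang] at h4
    exact h4 c.1 (by simp) ⟨h2, h3⟩
  · rintro A' B' ⟨hA, hB, hAB⟩
    obtain ⟨V1, p1, hV1, hA1⟩ := (sigma2_iff _).2 hA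
    obtain ⟨V2, p2, hV2, hB2⟩ := (sigma2_iff _).2 hB
    obtain ⟨e1, q1, he1⟩ := U_complete hV1
    obtain ⟨e2, q2, he2⟩ := U_complete hV2
    have u0 : UPoly (fun x : List Bool => x.length) := UPoly.length NPC.Poly.id
    have u1 : UPoly (fun x : List Bool => p1.eval x.length) := u0.eval p1
    have u2 : UPoly (fun x : List Bool => p2.eval x.length) := u0.eval p2
    have u3 : UPoly (fun x : List Bool => q1.eval (2 * x.length + 2 + 3 * p1.eval x.length)) :=
      (UPoly.add (UPoly.add (UPoly.mul (UPoly.const 2) u0) (UPoly.const 2))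
        (UPoly.mul (UPoly.const 3) u1)).eval q1
    have u4 : UPoly (fun x : List Bool => q2.eval (2 * x.length + 2 + 3 * p2.eval x.length)) :=
      (UPoly.add (UPoly.add (UPoly.mul (UPoly.const 2) u0) (UPoly.const 2))
        (UPoly.mul (UPoly.const 3) u2)).eval q2
    let s : List Bool → List Unit := fun x =>
      List.replicate (q1.eval (2 * x.length + 2 + 3 * p1.eval x.length) +
        q2.eval (2 * x.length + 2 + 3 * p2.eval x.length)) ()
    have hs : Poly s := UPoly.add u3 u4
    let k : List Bool → K := fun x => ((e1, List.replicate (p1.eval x.length) ()),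
      (e2, List.replicate (p2.eval x.length) ()), s x)
    have hk : Poly k := NPC.Poly.pair (NPC.Poly.pair (NPC.Poly.const _) u1)
      (NPC.Poly.pair (NPC.Poly.pair (NPC.Poly.const _) u2) hs)
    have klen : ∀ x x' : List Bool, x.length = x'.length → k x = k x' := by
      intro x x' hx
      simp only [k, s, hx]
    have m1 : ∀ x, mm (k x).1 (k x).2.2 x ↔ x ∈ A' := by
      intro x
      have h1 : x ∈ A' ↔ ¬ x ∈ A'ᶜ := by simp
      rw [h1, hA1 x]
      push Not
      unfold mm ac
      simp only [k, List.length_replicate]
      refine exists_congr fun y => and_congr_right fun hy => forall_congr' fun z => ?_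
      by_cases hz : z.length ≤ p1.eval x.length
      · rw [he1 _ _ (by
          rw [length_pairBits, length_pairBits]
          simp only [s, List.length_replicate]
          refine le_trans (eval_mono q1 ?_) (Nat.le_add_right _ _)
          omega)]
        simp [hz]
      · simp [hz]
    have m2 : ∀ x, mm (k x).2.1 (k x).2.2 x ↔ x ∈ B' := by
      intro x
      have h1 : x ∈ B' ↔ ¬ x ∈ B'ᶜ := by simp
      rw [h1, hB2 x]
      push Not
      unfold mm ac
      simp only [k, List.length_replicate]
      refine exists_congr fun y => and_congr_right fun hy => forall_congr' fun z => ?_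
      by_cases hz : z.length ≤ p2.eval x.length
      · rw [he2 _ _ (by
          rw [length_pairBits, length_pairBits]
          simp only [s, List.length_replicate]
          refine le_trans (eval_mono q2 ?_) (Nat.le_add_left _ _)
          omega)]
        simp [hz]
      · simp [hz]
    have hF : ∀ u : List Bool, bits (k u, u.map (fun _ => ())) ∈ lang TD := by
      intro u
      rw [bits_mem_lang]
      intro x hx
      have hx' : x.length = u.length := by simpa using hx
      rintro ⟨h1, h2⟩
      rw [klen u x hx'.symm] at h1 h2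
      have : x ∈ A' ∩ B' := ⟨(m1 x).1 h1, (m2 x).1 h2⟩
      rw [hAB] at this
      exact this
    obtain ⟨G, hG, hGh⟩ := factor hh (poly_bits (NPC.Poly.pair hk (by fun_prop))) hF
    refine ⟨fun x => bits (x, k x, G x), hraw.2 _ (poly_bits (NPC.Poly.pair NPC.Poly.id
      (NPC.Poly.pair hk hG))), fun x hx => ?_, fun x hx => ?_⟩
    · rw [bits_mem_lang]
      exact ⟨hGh x, (m1 x).2 hx⟩
    · rw [bits_mem_lang]
      exact ⟨hGh x, (m2 x).2 hx⟩

end Pool.Agent.J6H50.RF.PP
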