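import Pool.Agent.J6H50.RF.Defs

/-!
# Project RF (MP_9649a7_lc): statements of the modules

Theorem (`MAIN`): if the statement of the problem holds, then no `Π_2^P`-hard set has a p-optimal proof
system, and some tally set in `Σ_2^P` is not in `P`.

Proof.  Let `C` be a polynomial-time test for certificates of the facts `Cond μ e n t` (`Cert`).  The
theory `S` has, besides `S^1_2`, the axioms `Ax μ w` where `w = (Prov, j, e, p, n, t, π)` and
`C (e, n, t, π)`; they are true in `ℕ` (`S_axN`) and decidable in polynomial time, since `w` can be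
read off from the formula (`S_dec`).  If `T` is in the class, the sentences `RFN` are true in `ℕ`, so
`Cond μ e n t` is true for the index `e` of the formula `one j Prov` and `t = p (4 n + 9)`, there are
certificates, and `RFN` follows from `Ax μ w` by modus ponens (`S_con`).
-/

set_option autoImplicit false

namespace Pool.Agent.J6H50.RF

open Pool.Agent.NPC

/-! ### Auxiliary definitions -/

/-- the valuation given by a list -/
def asg (l : List ℕ) : ℕ → ℕ := fun i => l.getD i 0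

/-- an injective pairing -/
def pr (a b : ℕ) : ℕ := (a + b) * (a + b) + a

/-- quadruples -/
def qd (a x z u : ℕ) : ℕ := pr (pr a x) (pr z u)

/-- the term for `pr` -/
def prT (s t : Tm) : Tm := .add (.mul (.add s t) (.add s t)) s

/-- the term `qd (x_0, x_1, x_2, x_3)` -/
def qdT : Tm := prT (prT (.var 0) (.var 1)) (prT (.var 2) (.var 3))

/-- value of a polynomial -/
def pEv (p : List ℕ) (x : ℕ) : ℕ := p.foldr (fun c s => c + x * s) 0

/-- the formula `α (x_1)`: `x_1` is a quadruple `(x_0, x_1, x_2, x_3)` with `Prov`; the auxiliary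
variable is `x_(j+4)` -/
def one (j : ℕ) (Prov : Fm) : Fm :=
  .exLe (j + 4) (.var 1) (.and (.eq (.var (j + 4)) (.var 1))
    (.exLe 0 (.var (j + 4)) (.exLe 1 (.var (j + 4)) (.exLe 2 (.var (j + 4)) (.exLe 3 (.var (j + 4))
      (.and (.eq (.var (j + 4)) qdT) Prov))))))

/-- `Prov` does not depend on `x_(j+4)` -/
def ind (j : ℕ) (Prov : Fm) : Fm :=
  .all 0 (.all 1 (.all 2 (.all 3 (.imp Prov (.all (j + 4) Prov)))))

/-- the equivalence for the index `e` of `one j Prov` -/
def hyp (μ : Fm) (j : ℕ) (Prov : Fm) (e : ℕ) (p : List ℕ) : Fm :=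
  .all 1 (.all 2 (.imp (.le (pTm p (.len (.var 1))) (.len (.var 2)))
    (.iff (one j Prov) (inst 0 (num e) μ))))

/-- the data of an additional axiom: `Prov`, `j`, `e`, `p`, `n` and `t` (in unary), `π` -/
abbrev W : Type := Fm × ℕ × ℕ × List ℕ × List Unit × List Unit × List Bool

/-- the body of the axiom -/
def body (μ : Fm) (w : W) : Fm :=
  .imp (ind w.2.1 w.1) (.imp (hyp μ w.2.1 w.1 w.2.2.1 w.2.2.2.1) (RFN μ w.1 w.2.2.2.2.1.length))

/-- a formula `x_i = x_i` in which `i` is the number of the code of `w` -/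
def pad (w : W) : Fm := .eq (.var (gn (bits w))) (.var (gn (bits w)))

/-- the axiom -/
def Ax (μ : Fm) (w : W) : Fm := .imp (pad w) (body μ w)

/-- all quadruples `a, x, z, u < 2 ^ n` which satisfy the formula with the index `e` satisfy
`μ (a, x, z)` -/
def Cond (μ : Fm) (e n t : ℕ) : Prop := ∀ a x z u : ℕ, a < 2 ^ n → x < 2 ^ n → z < 2 ^ n → u < 2 ^ n →
  μ.Sat Nn (asg [e, qd a x z u, 2 ^ t]) → μ.Sat Nn (asg [a, x, z])

/-- a polynomial-time test for certificates of `Cond` -/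
structure Cert (μ : Fm) (C : ℕ × List Unit × List Unit × List Bool → Bool) : Prop where
  poly : Poly C
  sound : ∀ e n t π, C (e, n, t, π) = true → Cond μ e n.length t.length
  complete : ∀ (e : ℕ) (t : List Unit → List Unit), Poly t →
    (∀ n, Cond μ e n.length (t n).length) →
    ∃ g : List Unit → List Bool, Poly g ∧ ∀ n, C (e, n, t n, g n) = true

/-- the additional axioms -/
def AS (μ : Fm) (C : ℕ × List Unit × List Unit × List Bool → Bool) : Set Fm :=
  {φ | ∃ w : W, pEv w.2.2.2.1 (4 * w.2.2.2.2.1.length + 9) ≤ w.2.2.2.2.2.1.length ∧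
    C (w.2.2.1, w.2.2.2.2.1, w.2.2.2.2.2.1, w.2.2.2.2.2.2) = true ∧ φ = Ax μ w}

/-- the axioms `BASIC` for a structure -/
structure Bas {M : Type} (A : Str M) : Prop where
  b1 : ∀ x y, A.le y x → A.le y (A.suc x)
  b2 : ∀ x, x ≠ A.suc x
  b3 : ∀ x, A.le A.zero x
  b4 : ∀ x y, (A.le x y ∧ x ≠ y) ↔ A.le (A.suc x) y
  b5 : ∀ x, x ≠ A.zero → A.mul (A.suc (A.suc A.zero)) x ≠ A.zero
  b6 : ∀ x y, A.le y x ∨ A.le x y
  b7 : ∀ x y, A.le x y → A.le y x → x = y
  b8 : ∀ x y z, A.le x y → A.le y z → A.le x z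
  b9 : A.len A.zero = A.zero
  b10 : ∀ x, x ≠ A.zero → A.len (A.mul (A.suc (A.suc A.zero)) x) = A.suc (A.len x) ∧
    A.len (A.suc (A.mul (A.suc (A.suc A.zero)) x)) = A.suc (A.len x)
  b11 : A.len (A.suc A.zero) = A.suc A.zero
  b12 : ∀ x y, A.le x y → A.le (A.len x) (A.len y)
  b13 : ∀ x y, A.len (A.smash x y) = A.suc (A.mul (A.len x) (A.len y))
  b14 : ∀ y, A.smash A.zero y = A.suc A.zero
  b15 : ∀ x, x ≠ A.zero →
    A.smash (A.suc A.zero) (A.mul (A.suc (A.suc A.zero)) x) =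
      A.mul (A.suc (A.suc A.zero)) (A.smash (A.suc A.zero) x) ∧
    A.smash (A.suc A.zero) (A.suc (A.mul (A.suc (A.suc A.zero)) x)) =
      A.mul (A.suc (A.suc A.zero)) (A.smash (A.suc A.zero) x)
  b16 : ∀ x y, A.smash x y = A.smash y x
  b17 : ∀ x y z, A.len x = A.len y → A.smash x z = A.smash y z
  b18 : ∀ x y u v, A.len x = A.add (A.len u) (A.len v) →
    A.smash x y = A.mul (A.smash u y) (A.smash v y)
  b19 : ∀ x y, A.le x (A.add x y)
  b20 : ∀ x y, A.le x y → x ≠ y →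
    A.le (A.suc (A.mul (A.suc (A.suc A.zero)) x)) (A.mul (A.suc (A.suc A.zero)) y) ∧
    A.suc (A.mul (A.suc (A.suc A.zero)) x) ≠ A.mul (A.suc (A.suc A.zero)) y
  b21 : ∀ x y, A.add x y = A.add y x
  b22 : ∀ x, A.add x A.zero = x
  b23 : ∀ x y, A.add x (A.suc y) = A.suc (A.add x y)
  b24 : ∀ x y z, A.add (A.add x y) z = A.add x (A.add y z)
  b25 : ∀ x y z, A.le (A.add x y) (A.add x z) ↔ A.le y z
  b26 : ∀ x, A.mul x A.zero = A.zero
  b27 : ∀ x y, A.mul x (A.suc y) = A.add (A.mul x y) x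
  b28 : ∀ x y, A.mul x y = A.mul y x
  b29 : ∀ x y z, A.mul x (A.add y z) = A.add (A.mul x y) (A.mul x z)
  b30 : ∀ x y z, A.le (A.suc A.zero) x → (A.le (A.mul x y) (A.mul x z) ↔ A.le y z)
  b31 : ∀ x, x ≠ A.zero → A.len x = A.suc (A.len (A.half x))
  b32 : ∀ x y, x = A.half y ↔ (A.mul (A.suc (A.suc A.zero)) x = y ∨
    A.suc (A.mul (A.suc (A.suc A.zero)) x) = y)

/-- `ι` identifies `ℕ` with an initial segment of `A` -/
structure Emb {M : Type} (A : Str M) (ι : ℕ → M) : Prop where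
  inj : ∀ m n, ι m = ι n → m = n
  zero : ι 0 = A.zero
  suc : ∀ n, ι (n + 1) = A.suc (ι n)
  add : ∀ m n, ι (m + n) = A.add (ι m) (ι n)
  mul : ∀ m n, ι (m * n) = A.mul (ι m) (ι n)
  smash : ∀ m n, ι (2 ^ (m.size * n.size)) = A.smash (ι m) (ι n)
  len : ∀ n, ι n.size = A.len (ι n)
  half : ∀ n, ι (n / 2) = A.half (ι n)
  le : ∀ m n, A.le (ι m) (ι n) ↔ m ≤ n
  init : ∀ (x : M) n, A.le x (ι n) → ∃ m, x = ι m

/-! ### Logic -/

/-- RF-01. Truth depends only on the free variables (induction on `φ`; terms: `Occ`). -/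
def S_dep : Prop := ∀ {M : Type} (A : Str M) (φ : Fm) (v w : ℕ → M),
  (∀ i, φ.Free i → v i = w i) → (φ.Sat A v ↔ φ.Sat A w)

/-- RF-02. Soundness of the calculus (induction on `P`, cases of `Log`; for `vac` and `ex` use that
values do not depend on variables which do not occur; for `leib` use
`(a.sub i s).val A v = a.val A (update v i (s.val A v))`; classical logic for `dn`). -/
def S_sound : Prop := ∀ {M : Type} (A : Str M) (T : Set Fm), Models A T → ∀ P, IsProof T P →
  ∀ φ ∈ P, ∀ v, φ.Sat A v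

/-- RF-03. The axioms `BASIC` in a structure (unfold; choose `v` with the five given values, e.g.
`fun i => if i = 0 then x else if i = 1 then y else …`; classical logic for `and`, `or`, `iff`). -/
def S_bas : Prop := ∀ {M : Type} (A : Str M), (∀ φ ∈ basic, ∀ v, φ.Sat A v) ↔ Bas A

/-- RF-04. `ℕ` satisfies `BASIC` (`Nat.size_bit`, `Nat.size_pow`, `Nat.size_le_size`, `omega`,
`nlinarith`; `size (2 * x) = size x + 1` for `x ≠ 0`). -/
def S_basN : Prop := Bas Nn

/-- RF-05. `ℕ` satisfies `PIND`, for every formula: strong induction, `n / 2 < n` for `n ≠ 0`.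
(`inst i t φ` at `v` means `φ` at `update v i (t.val v)` if `x_i` is not in `t`; for
`φ (⌊x_i/2⌋)` use that `x_j` does not occur in `φ`, as in `S_dep`, which may be copied.) -/
def S_pindN : Prop := ∀ (i j : ℕ) (φ : Fm), i ≠ j → ¬ φ.Occ j → ∀ v, (pind i j φ).Sat Nn v

/-- RF-06. Initial segment, without `#`, `|x|`, `⌊x/2⌋`: take `ι n = A.suc^[n] A.zero`.
`suc` is injective and `suc x ≠ 0` (`b4`, `b6`, `b7`, `b3`, `b2`), `add`, `mul` by induction
(`b22`, `b23`, `b26`, `b27`), `le` and `init` by induction on `n`: if `x ≤ ι (n + 1)` and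
`x ≠ ι (n + 1)` then `x ≤ ι n`: otherwise `ι n ≤ x`, `ι n ≠ x`, so `ι (n + 1) ≤ x` by `b4`, and
`x = ι (n + 1)` by `b7`. -/
def S_emb1 : Prop := ∀ {M : Type} (A : Str M), Bas A → ∃ ι : ℕ → M,
  (∀ m n, ι m = ι n → m = n) ∧ ι 0 = A.zero ∧ (∀ n, ι (n + 1) = A.suc (ι n)) ∧
  (∀ m n, ι (m + n) = A.add (ι m) (ι n)) ∧ (∀ m n, ι (m * n) = A.mul (ι m) (ι n)) ∧
  (∀ m n, A.le (ι m) (ι n) ↔ m ≤ n) ∧ ∀ (x : M) n, A.le x (ι n) → ∃ m, x = ι m

/-- RF-07. The other functions: `half` by `b32` (`⇐`), `len` by strong induction with `b9`, `b31`,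
`half`; `smash`: `1 # 1 = 2` (`|1 # 1| = S (1 * 1) = 2` by `b13`, and `1 # 1 ≤ ι m`?: use
`b15`, `b16`, `b17`, `b18`): first `ι 0 # y = 1` (`b14`), and for `m ≠ 0` with `|m| = |u| + |v|`,
`u` of length `|m| - 1` and `v = 1`: `m # n = (u # n) * (1 # n)` (`b18`), which reduces to `1 # n`;
by `b15` `1 # (2 x) = 2 (1 # x)` for `x ≠ 0` which reduces to `1 # 1`; finally
`1 # 1 = 2`: `|1 # 1| = 2`; by `b18` with `y = 1`, `x` of length `2 = 1 + 1`: `2 # 1 = (1 # 1) (1 # 1)`,
and `2 # 1 = 1 # 2 = 2 (1 # 1)` (`b16`, `b15`), so `(1 # 1) (1 # 1) = (1 # 1) 2`, and `1 # 1` is not `0`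
as its length is `2` (`b9`), so `1 # 1 = 2` by `b30`, `b7` (`b6` and `b4`: nonzero elements are
`≥ 1`). -/
def S_emb2 : Prop := ∀ {M : Type} (A : Str M), Bas A → ∀ ι : ℕ → M,
  (∀ m n, ι m = ι n → m = n) → ι 0 = A.zero → (∀ n, ι (n + 1) = A.suc (ι n)) →
  (∀ m n, ι (m + n) = A.add (ι m) (ι n)) → (∀ m n, ι (m * n) = A.mul (ι m) (ι n)) →
  (∀ m n, A.le (ι m) (ι n) ↔ m ≤ n) → (∀ (x : M) n, A.le x (ι n) → ∃ m, x = ι m) → Emb A ι

/-- RF-08. Absoluteness of bounded formulas (induction on `Sb`; terms have the same values; for the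
quantifiers use `init`) and the value of numerals (`Nat.binaryRec` or induction on the list
`n.bits`, with `valB_bits`). -/
def S_abs : Prop := ∀ {M : Type} (A : Str M) (ι : ℕ → M), Emb A ι →
  (∀ (b : Bool) (φ : Fm), Sb b φ → ∀ v : ℕ → ℕ, φ.Sat Nn v ↔ φ.Sat A (fun i => ι (v i))) ∧
  ∀ (n : ℕ) (v : ℕ → M), (num n).val A v = ι n

/-- RF-09. Numerals and polynomials in `ℕ`; the embedding of `ℕ` in itself. -/
def S_numN : Prop := Emb Nn (fun n => n) ∧ (∀ (n : ℕ) (v : ℕ → ℕ), (num n).val Nn v = n) ∧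
  (∀ n i, ¬ (num n).Occ i) ∧
  (∀ (p : List ℕ) (t : Tm) (v : ℕ → ℕ), (pTm p t).val Nn v = pEv p (t.val Nn v)) ∧
  (∀ (p : List ℕ) (x y : ℕ), x ≤ y → pEv p x ≤ pEv p y)

/-- RF-10. Quadruples. -/
def S_qd : Prop :=
  (∀ a b c d : ℕ, pr a b = pr c d → a = c ∧ b = d) ∧
  (∀ a x z u a' x' z' u' : ℕ, qd a x z u = qd a' x' z' u' → a = a' ∧ x = x' ∧ z = z' ∧ u = u') ∧
  (∀ n a x z u : ℕ, a < 2 ^ n → x < 2 ^ n → z < 2 ^ n → u < 2 ^ n → (qd a x z u).size ≤ 4 * n + 9) ∧
  (∀ a x z u : ℕ, a ≤ qd a x z u ∧ x ≤ qd a x z u ∧ z ≤ qd a x z u ∧ u ≤ qd a x z u) ∧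
  ∀ v : ℕ → ℕ, qdT.val Nn v = qd (v 0) (v 1) (v 2) (v 3)

/-- RF-11. The formula `one`. (Syntax: unfold `exLe`, `and`, `neg`.) -/
def S_one : Prop := S_qd →
  (∀ (j : ℕ) (P : Fm), Sb true P → Sb true (one j P)) ∧
  (∀ (j : ℕ) (P : Fm), (∀ i, P.Free i → i < 4) → ∀ i, (one j P).Free i → i = 1) ∧
  ∀ (j : ℕ) (P : Fm) (v : ℕ → ℕ), (one j P).Sat Nn v ↔ ∃ a x z u, v 1 = qd a x z u ∧
    P.Sat Nn (fun i => if i = 0 then a else if i = 1 then x else if i = 2 then z else
      if i = 3 then u else if i = j + 4 then v 1 else v i)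

/-- RF-12. The additional axioms are true.  Let `ind` and `hyp` be true at `v`, `a, x, z, u` of
length at most `n` (so `< 2 ^ n`, `Nat.size_le`) and `Prov` true at `v' = v (0 ↦ a, 1 ↦ x, 2 ↦ z,
3 ↦ u)`.  By `ind`, `Prov` is true at `v' (j + 4 ↦ y)`, `y = qd a x z u`, so `one j Prov` is true at
`v (1 ↦ y, 2 ↦ 2 ^ t)` and by `hyp`, since `p (|y|) ≤ p (4 n + 9) ≤ t < |2 ^ t|`, `μ` is true at
`v (1 ↦ y, 2 ↦ 2 ^ t, 0 ↦ e)`, that is at `asg [e, y, 2 ^ t]`; by `Cond` at `asg [a, x, z]`, that is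
at `v'`. -/
def S_axN : Prop := S_dep → S_numN → S_qd → S_one → ∀ μ : Fm, (∀ i, μ.Free i → i < 3) → ∀ w : W,
  pEv w.2.2.2.1 (4 * w.2.2.2.2.1.length + 9) ≤ w.2.2.2.2.2.1.length →
  Cond μ w.2.2.1 w.2.2.2.2.1.length w.2.2.2.2.2.1.length → ∀ v, (Ax μ w).Sat Nn v

/-- RF-13. Theories in the class prove only true sentences `μ (e, x, z)`: a model `B` of `T` is a
model of `BASIC`, take `ι`; by soundness `muAt μ e x z` is true in `B`, so `μ` is true in `B` at
`0 ↦ ι e, 1 ↦ ι x, 2 ↦ ι z`, then absoluteness.  Hence for every `T` in the class and `IsProv μ T Prov`,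
and every index `e` and `p` of `one j Prov` (`hyp` provable in `S^1_2`, so true in `ℕ`):
`Cond μ e n t` for `t ≥ p (4 n + 9)`. -/
def S_cond : Prop := S_dep → S_sound → S_bas → S_basN → S_pindN → S_emb1 → S_emb2 → S_abs → S_numN →
  S_qd → S_one → ∀ (μ : Fm) (T : Set Fm) (Prov : Fm) (j e : ℕ) (p : List ℕ), Univ μ → IsTh T →
  IsProv μ T Prov → ¬ Prov.Occ (j + 4) → Provable S12 (hyp μ j Prov e p) →
  ∀ n t : ℕ, pEv p (4 * n + 9) ≤ t → Cond μ e n t

/-! ### Polynomial time -/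

/-- RF-14. Raw strings and coded strings. (`PC.rawIn`, `PC.rawBool`, `poly_parse`, … in
`NPC/Dec.lean`, `NPC/Hard.lean`.) -/
def S_raw : Prop := (∀ f : List Bool → List Bool, PolyTime f → Poly f) ∧
  (∀ f : List Bool → List Bool, Poly f → PolyTime f)

/-- RF-15. Numerals, formulas. (`Poly.of_toT`, `Poly.pair`, `Poly.const`; `num` with `Poly.foldr`, the
size of the numeral of `n` is linear in the number of bits.)  `μ` is fixed. -/
def S_pax : Prop := (Poly (num : ℕ → Tm)) ∧ ∀ μ : Fm, Poly (fun w : W => Ax μ w) ∧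
  Poly (fun w : W => body μ w) ∧ Poly (fun w : W => pad w) ∧
  Poly (fun a : Fm × List Unit => RFN μ a.1 a.2.length)

/-- RF-16. The additional axioms are decidable in polynomial time.  Given a string `x`: by `parse` get
a tree, which for `x = bits (Ax μ w)` is `toT (3, toT (1, toT (0, i), …), …)` with `i = gn (bits w)`;
so `i` is read off by `hd`, `tl` and decoding (`TDec`), then `w` by `i.bits.dropLast` and `unbits W`
(`gn w = valB (w ++ [true])`, `valB`, `normB` in `NPC/Num.lean`; a `TDec Fm` instance can be avoided: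
take for the first component of `w` a tree, and for `Ax` the same function on trees, see `S_pax`, or
write an instance of `TDec Fm`).  Then test `x = bits (Ax μ w)` and the two conditions.
`polyTime_of_poly` in `NPC/Dec.lean`. -/
def S_dec : Prop := S_pax → ∀ (μ : Fm) (C : ℕ × List Unit × List Unit × List Bool → Bool), Poly C →
  InPP (fun φ => φ ∈ AS μ C)

/-- RF-17. Construction of the proofs.  `P0` a proof of `ind`, `P1` a proof of `hyp` (fixed lists);
for `n` in unary `w = (Prov, j, e, p, n, t, g n)`, `t = p (4 n + 9)` in unary (`UPoly`); the proof is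
`RFN, hyp → RFN, body, pad, Ax μ w, P0 ++ P1` (concatenations of proofs are proofs). -/
def S_con : Prop := S_pax → S_raw → ∀ (μ : Fm) (C : ℕ × List Unit × List Unit × List Bool → Bool),
  Cert μ C → ∀ (Prov : Fm) (j e : ℕ) (p : List ℕ), Provable S12 (ind j Prov) →
  Provable S12 (hyp μ j Prov e p) → (∀ n t : ℕ, pEv p (4 * n + 9) ≤ t → Cond μ e n t) →
  Constructible (S12 ∪ AS μ C) (RFN μ Prov)

/-- RF-18. Values of terms (induction on `t`; `#`: `2 ^ (|x| |y|)` is `valB` of a list of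
`|x| * |y|` zeros and a one; `len`: `(x.bits).length = x.size`), and the update of a list. -/
def S_val : Prop := (∀ t : Tm, Poly (fun l : List ℕ => t.val Nn (asg l))) ∧
  ∀ i : ℕ, ∃ up : List ℕ × ℕ → List ℕ, Poly up ∧ ∀ l x, asg (up (l, x)) = Function.update (asg l) i x

/-- RF-19. `Σ^b_1` formulas are in `NP` (Kent, Hodgson).  By induction on `Sb`, for `b = true` the formula,
for `b = false` its negation.  Certificates are trees: for the negation of `φ → ψ` (`Π`): a pair; for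
`φ → ψ` (`Σ`): a certificate of `¬ φ` or of `ψ`, with a mark; for sharply bounded `∀` (`Σ`): the list of
the certificates for `x = 0, …, |t|` (`T.ofList`); for the negation of a bounded `∀`: the value `x` and a
certificate.  Bounds for the size of `asg (up (l, x))`: `Poly.sz_le`. -/
def S_np : Prop := S_val → ∀ φ : Fm, Sb true φ → ∃ (V : List ℕ × T → Bool) (q : Polynomial ℕ),
  Poly V ∧ ∀ l, φ.Sat Nn (asg l) ↔ ∃ c : T, sz c ≤ q.eval (sz l) ∧ V (l, c) = true

/-- RF-20. `Π_2^P` with trees as certificates.  Strings `y` of length at most `p` are decoded with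
`unbits T` (or `parse`); not every string is a code: for the universal quantifier codes only matter.
(`bits`, `unpair`, `poly_unpair`, `polyTime_of_poly`.) -/
def S_pi2 : Prop := ∀ (R : List Bool × T × T → Bool) (q : Polynomial ℕ), Poly R →
  ∀ D : Set (List Bool), (∀ x, x ∈ D ↔ ∀ y : T, sz y ≤ q.eval x.length →
    ∃ z : T, sz z ≤ q.eval x.length ∧ R (x, y, z) = true) → InPi2 D

/-- RF-21. `Cond` is in `Π_2^P`: `y` codes `(a, x, z, u)` and a certificate of
`μ (e, qd a x z u, 2 ^ t)` (with the conditions `< 2 ^ n`, that is `size ≤ n`), `z` a certificate of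
`μ (a, x, z)`; strings which are not codes are not in the language. -/
def S_cpi2 : Prop := S_pi2 → (∀ φ : Fm, Sb true φ → ∃ (V : List ℕ × T → Bool) (q : Polynomial ℕ),
    Poly V ∧ ∀ l, φ.Sat Nn (asg l) ↔ ∃ c : T, sz c ≤ q.eval (sz l) ∧ V (l, c) = true) →
  ∀ μ : Fm, Sb true μ →
  InPi2 (lang fun a : ℕ × List Unit × List Unit => Cond μ a.1 a.2.1.length a.2.2.length)

/-- RF-22. The same for tally sets. `y` codes `e, n, t` (in unary or binary; they are at most
`|x|`), `(a, x, z, u)` and a certificate. -/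
def S_tpi2 : Prop := S_pi2 → (∀ φ : Fm, Sb true φ → ∃ (V : List ℕ × T → Bool) (q : Polynomial ℕ),
    Poly V ∧ ∀ l, φ.Sat Nn (asg l) ↔ ∃ c : T, sz c ≤ q.eval (sz l) ∧ V (l, c) = true) →
  ∀ μ : Fm, Sb true μ →
  InPi2 {x | ∀ e n t : ℕ, x = List.replicate (pr e (pr n t)) true → Cond μ e n t}

/-- RF-23. Certificates from a p-optimal proof system `h` for a `Π_2^P`-hard set `L`.  Let `f` be the
reduction of the language of `Cond` to `L`: `C (e, n, t, π)` tests `h π = f (bits (e, n, t))`.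
Complete: for `t` with `∀ n, Cond μ e |n| |t n|` the function `h'` with
`h' (false :: w) = h w`, `h' [] = h []`, `h' (true :: w) = f (bits (e, n, t n))` (`n` of length `|w|`) is
a proof system for `L`; let `h ∘ g = h'`; take `fun n => g (true :: 1 … 1)`. -/
def S_ca : Prop := S_raw → ∀ μ : Fm,
  InPi2 (lang fun a : ℕ × List Unit × List Unit => Cond μ a.1 a.2.1.length a.2.2.length) →
  ∀ L, Pi2Hard L → (∃ h, POptimal L h) → ∃ C, Cert μ C

/-- RF-24. Certificates if tally sets in `Σ_2^P` are in `P`.  Let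
`D = {1 ^ (pr e (pr n t)) | ¬ Cond μ e n t}`, a tally set with the complement in the hypothesis (`pr` is
injective), so `D` is in `P`.  `C (e, n, t, π)` tests that `π` is a string of `pr e (pr n t)` ones
and is not in `D`. Complete: `g n` is this string (`UPoly`, `e` is fixed). -/
def S_cb : Prop := S_raw → S_qd → ∀ μ : Fm,
  InPi2 {x | ∀ e n t : ℕ, x = List.replicate (pr e (pr n t)) true → Cond μ e n t} →
  (∀ L, Tally L → InSigma2 L → InP L) → ∃ C, Cert μ C

/-- RF-25. Assembly. Given `C` with `Cert μ C`, `S = S12 ∪ AS μ C` is in the class (model `Nn`) and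
refutes `Q1 μ`: for `T`, `Prov` choose `j` with `¬ Prov.Occ (j + 4)` (the set of occurring variables is
bounded), `Provable S12 (ind j Prov)` (`Log.vac` and generalizations), and `e`, `p` from `Univ.univ` for
`α = one j Prov` (two generalizations give `hyp`). -/
def S_asm : Prop := S_dep → S_sound → S_bas → S_basN → S_pindN → S_numN → S_qd → S_one →
  (∀ (μ : Fm) (T : Set Fm) (Prov : Fm) (j e : ℕ) (p : List ℕ), Univ μ → IsTh T →
    IsProv μ T Prov → ¬ Prov.Occ (j + 4) → Provable S12 (hyp μ j Prov e p) →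
    ∀ n t : ℕ, pEv p (4 * n + 9) ≤ t → Cond μ e n t) →
  (∀ μ : Fm, (∀ i, μ.Free i → i < 3) → ∀ w : W,
    pEv w.2.2.2.1 (4 * w.2.2.2.2.1.length + 9) ≤ w.2.2.2.2.2.1.length →
    Cond μ w.2.2.1 w.2.2.2.2.1.length w.2.2.2.2.2.1.length → ∀ v, (Ax μ w).Sat Nn v) →
  (∀ (μ : Fm) (C : ℕ × List Unit × List Unit × List Bool → Bool), Poly C →
    InPP (fun φ => φ ∈ AS μ C)) →
  (∀ (μ : Fm) (C : ℕ × List Unit × List Unit × List Bool → Bool),
    Cert μ C → ∀ (Prov : Fm) (j e : ℕ) (p : List ℕ), Provable S12 (ind j Prov) →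
    Provable S12 (hyp μ j Prov e p) → (∀ n t : ℕ, pEv p (4 * n + 9) ≤ t → Cond μ e n t) →
    Constructible (S12 ∪ AS μ C) (RFN μ Prov)) →
  ∀ μ : Fm, Univ μ → (∃ C, Cert μ C) → ¬ Q1 μ

end Pool.Agent.J6H50.RF
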